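import Pool.Agent.H49.LAN.Stmts

set_option autoImplicit false

namespace LAN

theorem ard : ARDStmt := by
  intro p a m w k lam s r κ S hp h11 hm hpm hs ha hcop hk0 hkv hw hκ hr hr1 hS hpar hineq
  -- |κ| ≥ 2 p
  set K : ℕ := κ.natAbs with hK
  have hKn : K ^ 2 = p ^ a * m := by
    have : ((K ^ 2 : ℕ) : ℤ) = ((p ^ a * m : ℕ) : ℤ) := by
      rw [← hκ]; push_cast; rw [hK]; simp [sq_abs]
    exact_mod_cast this
  have hpK : p ∣ K := by
    have : p ∣ K ^ 2 := by
      rw [hKn]; exact Dvd.dvd.mul_right (dvd_pow_self p (by omega)) m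
    exact hp.dvd_of_dvd_pow this
  obtain ⟨K1, hK1⟩ := hpK
  have ha2 : 2 ≤ a := by
    by_contra hlt
    have ha1 : a = 1 := by omega
    rw [hK1, ha1] at hKn
    have h1 : p * (p * K1 ^ 2) = p * m := by rw [pow_one] at hKn; rw [← hKn]; ring
    have h2 : p * K1 ^ 2 = m := Nat.eq_of_mul_eq_mul_left hp.pos h1
    exact hpm ⟨K1 ^ 2, h2.symm⟩
  have hK2 : 2 ≤ K1 := by
    obtain ⟨b, rfl⟩ := Nat.exists_eq_add_of_le ha2
    rw [hK1] at hKn
    have h1 : p ^ 2 * K1 ^ 2 = p ^ 2 * (p ^ b * m) := by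
      calc p ^ 2 * K1 ^ 2 = (p * K1) ^ 2 := by ring
        _ = p ^ (2 + b) * m := hKn
        _ = _ := by rw [pow_add]; ring
    have h2 : K1 ^ 2 = p ^ b * m := Nat.eq_of_mul_eq_mul_left (pow_pos hp.pos 2) h1
    have h3 : 1 ≤ p ^ b := Nat.one_le_pow _ _ hp.pos
    have h4 : 2 ≤ K1 ^ 2 := by rw [h2]; nlinarith
    by_contra hlt
    have : K1 ≤ 1 := by omega
    have : K1 ^ 2 ≤ 1 := by nlinarith
    omega
  have hKp : 2 * p ≤ K := by rw [hK1]; nlinarith
  have hr0 : 1 ≤ r := by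
    rcases Nat.eq_zero_or_pos r with h | h
    · subst h
      have := Nat.eq_zero_of_zero_dvd hr
      omega
    · exact h
  rcases Nat.lt_or_ge r 2 with hlt | hr2
  · -- r = 1
    have h1 : r = 1 := by omega
    have hw2 := hr1 h1
    have hmodd : ¬ 2 ∣ m := by
      intro h
      have h3 : 2 ∣ Nat.gcd m (p ^ s * w) := Nat.dvd_gcd h (Dvd.dvd.mul_left hw2 _)
      rw [Nat.Coprime] at hcop
      rw [hcop] at h3
      omega
    have hp2 : ¬ 2 ∣ p := by
      intro h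
      have := (Nat.prime_dvd_prime_iff_eq Nat.prime_two hp).mp h
      omega
    have hnodd : ¬ 2 ∣ p ^ a * m := by
      intro h
      rcases (Nat.Prime.dvd_mul Nat.prime_two).mp h with h | h
      · exact hp2 (Nat.prime_two.dvd_of_dvd_pow h)
      · exact hmodd h
    have hSe : (2 : ℤ) ∣ S := by
      have h2 : (2 : ℤ) ∣ (p : ℤ) * S := by
        rw [hS, h1]; exact ⟨((p ^ a * m : ℕ) : ℤ), by push_cast; ring⟩
      rcases Int.Prime.dvd_mul' Nat.prime_two (by exact_mod_cast h2) with h | h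
      · exact absurd (by exact_mod_cast h) hp2
      · exact_mod_cast h
    apply hnodd
    have : (2 : ℤ) ∣ ((p ^ a * m : ℕ) : ℤ) := by
      have := dvd_add hpar hSe
      simpa using this
    exact_mod_cast this
  · -- r ≥ 2
    set v : ℤ := ((p ^ s * w : ℕ) : ℤ) with hv
    have hv0 : 0 < v := by
      rw [hv]; exact_mod_cast Nat.mul_pos (pow_pos hp.pos s) hw
    have hkv' : (k : ℤ) < v := by rw [hv]; exact_mod_cast hkv
    have hk0' : (0 : ℤ) < k := by exact_mod_cast hk0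
    have hn : ((p ^ a * m : ℕ) : ℤ) = (K : ℤ) ^ 2 := by rw [← hKn]; push_cast; rfl
    rw [hn] at hineq
    have hKz : (2 : ℤ) * p ≤ K := by exact_mod_cast hKp
    have hpz : (11 : ℤ) ≤ p := by exact_mod_cast h11
    have hrz : (2 : ℤ) ≤ r := by exact_mod_cast hr2
    have habs : |κ| = (K : ℤ) := by rw [hK]; simp
    have hrhs : (2 * (k : ℤ) - v) * κ ≤ v * K := by
      have h1 : |2 * (k : ℤ) - v| ≤ v := by rw [abs_le]; constructor <;> linarith
      calc (2 * (k : ℤ) - v) * κ ≤ |(2 * (k : ℤ) - v) * κ| := le_abs_self _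
        _ = |2 * (k : ℤ) - v| * |κ| := abs_mul _ _
        _ ≤ v * K := by rw [habs]; exact mul_le_mul_of_nonneg_right h1 (by positivity)
    have hK0 : (0 : ℤ) < K := by linarith
    have hc : (p : ℤ) - 5 ≤ ((p : ℤ) - 1) * (r - 1) - 2 * r := by nlinarith
    have h5 : v * (K : ℤ) ^ 2 * ((p : ℤ) - 5) ≤
        v * (K : ℤ) ^ 2 * (((p : ℤ) - 1) * (r - 1) - 2 * r) :=
      mul_le_mul_of_nonneg_left hc (by positivity)
    have h6 : ((p : ℤ) - 1) * p * (2 * (k : ℤ) - v) * κ ≤ ((p : ℤ) - 1) * p * (v * K) := by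
      have : ((p : ℤ) - 1) * p * (2 * (k : ℤ) - v) * κ = ((p : ℤ) - 1) * p * ((2 * (k : ℤ) - v) * κ) := by ring
      rw [this]
      exact mul_le_mul_of_nonneg_left hrhs (by nlinarith)
    have h7 : 0 < 2 * (p : ℤ) * (K : ℤ) ^ 2 * (p - 1) := by
      have : (0 : ℤ) < p - 1 := by linarith
      positivity
    have h8 : v * K * (K * ((p : ℤ) - 5)) < v * K * (((p : ℤ) - 1) * p) := by nlinarith
    have h9 : (K : ℤ) * ((p : ℤ) - 5) < ((p : ℤ) - 1) * p :=
      lt_of_mul_lt_mul_left h8 (by positivity)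
    nlinarith

end LAN
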