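import Pool.Agent.H49.LAN.Stmts

set_option autoImplicit false

open scoped BigOperators
open Finset

namespace LAN

theorem NUM.unit_sub (p s : ℕ) [Fact p.Prime] (hp2 : p ≠ 2) (hs : 1 ≤ s) (t : (ZMod (p ^ s))ˣ)
    (ht : ∀ x : (ZMod (p ^ s))ˣ, x ∈ Subgroup.zpowers t) : IsUnit ((t : ZMod (p ^ s)) - 1) := by
  have hp : p.Prime := Fact.out
  have hdvd : p ∣ p ^ s := dvd_pow_self p (by omega)
  set π := ZMod.castHom hdvd (ZMod p) with hπ
  set x : ZMod (p ^ s) := (t : ZMod (p ^ s)) - 1 with hx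
  have hxv : ((x.val : ℕ) : ZMod (p ^ s)) = x := ZMod.natCast_zmod_val x
  rw [← hxv, ZMod.isUnit_iff_coprime]
  by_contra hcop
  have hpd : p ∣ x.val := by
    by_contra hnd
    apply hcop
    exact Nat.Coprime.pow_right s ((Nat.Prime.coprime_iff_not_dvd hp).mpr hnd).symm
  have h1 : π x = 0 := by
    rw [← hxv, map_natCast]
    exact (ZMod.natCast_eq_zero_iff _ _).mpr hpd
  have h2 : π (t : ZMod (p ^ s)) = 1 := by
    have : π x = π (t : ZMod (p ^ s)) - 1 := by rw [hx, map_sub, map_one]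
    rw [h1] at this
    exact (sub_eq_zero.mp this.symm)
  obtain ⟨k, hk⟩ := ht (-1)
  have h3 : (Units.map (π : ZMod (p ^ s) →* ZMod p)) t = 1 := by
    ext
    simpa using h2
  have h4 : (Units.map (π : ZMod (p ^ s) →* ZMod p)) (-1) = 1 := by
    have h5 : t ^ k = -1 := hk
    rw [← h5, map_zpow, h3, one_zpow]
  have h6 : (-1 : ZMod p) = 1 := by
    have := congrArg (fun u : (ZMod p)ˣ => (u : ZMod p)) h4
    simpa using this
  have h7 : ((2 : ℕ) : ZMod p) = 0 := by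
    have : (1 : ZMod p) + 1 = 0 := by nth_rewrite 1 [← h6]; ring
    push_cast
    rw [← this]; norm_num
  have h8 : p ∣ 2 := (ZMod.natCast_eq_zero_iff _ _).mp h7
  exact hp2 ((Nat.prime_dvd_prime_iff_eq hp Nat.prime_two).mp h8)

theorem num (h1 : KEOStmt) (h2 : NORStmt) (h3 : GPWStmt) (h4 : QINStmt) (h5 : BSGStmt)
    (h6 : SGNStmt) (h7 : OUTStmt) (h8 : RNUStmt) (h9 : INEStmt) (h10 : LOWStmt) : NUMStmt := by
  intro p s a m _ W _ _ _ f lam hp2 hs hpw hmw hm hmp h01 hDS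
  have hp : p.Prime := Fact.out
  have hn0 : (0 : ℤ) < ((p ^ a * m : ℕ) : ℤ) := by
    have : 0 < p ^ a * m := Nat.mul_pos (pow_pos hp.pos a) (by omega)
    exact_mod_cast this
  haveI hcyc : IsCyclic (ZMod (p ^ s))ˣ := ZMod.isCyclic_units_of_prime_pow p hp hp2 s
  obtain ⟨t, ht⟩ := IsCyclic.exists_generator (α := (ZMod (p ^ s))ˣ)
  obtain ⟨g, j, ε, hε, hper⟩ := h1 p s a m W f lam hp2 hs hpw hmw hm hmp hDS t
  obtain ⟨c, hNS, hDS', hsum⟩ := h2 p s W f _ lam t g j ε hDS (NUM.unit_sub p s hp2 hs t ht) hε hper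
  have hgp := h3 p s W _ _ lam t g ε hp2 hs hn0.ne' hpw hDS' hNS
  have hq := h4 p s W _ t g ε hp2 hs ht hgp hNS
  have h01' : ∀ i u, (fun i u => f (i + c) u) i u = 0 ∨ (fun i u => f (i + c) u) i u = 1 :=
    fun i u => h01 (i + c) u
  obtain ⟨τ, hBS⟩ := h5 p s W _ _ lam t g ε hp2 hs ht hgp h01' hDS' hNS hq
  have he := h6 p s W _ _ lam _ _ τ g ε hp2 hn0 hDS' hBS
  subst he
  obtain ⟨o1, o2, o3, o4, o5, o6⟩ := h7 p W _ _ τ g _ hp2 hBS
  obtain ⟨r1, r2⟩ := h8 p W g hp2 hgp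
  have hine := h9 p s W _ _ lam τ g _ hp2 hs h01' hDS' hq hBS rfl
  refine ⟨∑ u, (f (iota p s 1 + c) u - f (iota p s 0 + c) u),
    ∑ u, (f (iota p s 1 + c) u - f (iota p s 0 + c) u) ^ 2,
    ((range (p - 1)).filter (fun d => g ^ d = 1)).card, o1, r1, r2, o2, ?_, ?_, ?_⟩
  · rw [← o1]
    have e1 : ∀ x : ℤ, (2 : ℤ) ∣ x ^ 2 - x := by
      intro x
      have := Int.even_mul_pred_self x
      obtain ⟨y, hy⟩ := this
      exact ⟨y, by nlinarith⟩
    have e2 : (2 : ℤ) ∣ ∑ u, ((f (iota p s 1 + c) u - f (iota p s 0 + c) u) ^ 2 -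
        (f (iota p s 1 + c) u - f (iota p s 0 + c) u)) :=
      Finset.dvd_sum (fun u _ => e1 _)
    rw [Finset.sum_sub_distrib] at e2
    have e3 := e1 (∑ u, (f (iota p s 1 + c) u - f (iota p s 0 + c) u))
    have := dvd_sub e3 e2
    refine this.trans (dvd_of_eq ?_)
    ring
  · have hs2 : ∑ i, ∑ u, (fun i u => f (i + c) u) i u = ∑ i, ∑ u, f i u := hsum
    rw [hs2] at hine
    exact hine
  · intro h3' hr
    have hg : g = 1 := by
      subst h3'
      have hsub : (range (3 - 1)).filter (fun d => g ^ d = 1) = range (3 - 1) := by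
        apply Finset.eq_of_subset_of_card_le (Finset.filter_subset _ _)
        rw [hr]; simp
      have : (1 : ℕ) ∈ (range (3 - 1)).filter (fun d => g ^ d = 1) := by
        rw [hsub]; simp
      have := (Finset.mem_filter.mp this).2
      simpa using this
    obtain ⟨l1, l2, l3⟩ := h10 p s W _ _ lam τ g hp2 hs h01' hDS' hq hBS h3' hg
    have hs2 : ∑ i, ∑ u, (fun i u => f (i + c) u) i u = ∑ i, ∑ u, f i u := hsum
    rw [hs2] at l1 l2
    refine ⟨l1, l2, ?_⟩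
    exact_mod_cast l3

end LAN
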