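import Pool.Agent.H49.LAN.Fin
import Pool.Agent.H49.LAN.NUM
import Pool.Agent.H14.LAN.MAJ
import Pool.Agent.H14.LAN.OUT
import Pool.Agent.H15.LAN.AR3
import Pool.Agent.H15.LAN.GRA
import Pool.Agent.H15.LAN.GRP
import Pool.Agent.H17.LAN.AIN
import Pool.Agent.H17.LAN.BSG
import Pool.Agent.H25.LAN.ASQ
import Pool.Agent.H25.LAN.INE
import Pool.Agent.H25.LAN.MON
import Pool.Agent.H25.LAN.ROO
import Pool.Agent.H31.LAN.AMG
import Pool.Agent.H31.LAN.RE0
import Pool.Agent.H31.LAN.TRC
import Pool.Agent.H34.LAN.LOW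
import Pool.Agent.H34.LAN.RNU
import Pool.Agent.H42.LAN.GPW
import Pool.Agent.H42.LAN.KCO
import Pool.Agent.H59.LAN.KE2
import Pool.Agent.H59.LAN.PSH
import Pool.Agent.H59.LAN.TWO
import Pool.Agent.H70.LAN.CHR
import Pool.Agent.H70.LAN.LAU
import Pool.Agent.H70.LAN.REL
import Pool.Agent.H70.LAN.SQR
import Pool.Agent.H83.LAN.CNJ
import Pool.Agent.H83.LAN.DIR
import Pool.Agent.H83.LAN.DIV
import Pool.Agent.H83.LAN.GAL
import Pool.Agent.H83.LAN.NOR
import Pool.Agent.H83.LAN.QIN
import Pool.Agent.H83.LAN.REP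
import Pool.Agent.H83.LAN.RUO
import Pool.Agent.H83.LAN.SGN

/-! Project LAN (MP_ca3cd6_co): assembly of all modules. -/

set_option autoImplicit false

namespace LAN

theorem all_rel : RELStmt := rel gal
theorem all_mon : MONStmt := mon cnj rep all_rel re0 amg (trc gal) maj dir lau
theorem all_roo : ROOStmt := roo div all_mon (coc ga2)
theorem all_trv : TRVStmt := trv chr
theorem all_keo : KEOStmt := keo gal cnj all_roo all_trv ruo all_rel
theorem all_ke2 : KE2Stmt := ke2 gal ga2 cnj div all_roo all_trv ru2 all_rel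
theorem all_two : TWOStmt := two all_ke2 psh
theorem all_out : OUTStmt := out kco
theorem all_num : NUMStmt := num all_keo nor gpw qin bsg (sgn kco sqr) all_out rnu (ine all_out)
  (low all_out)
theorem all_asq : ASQStmt := asq div rep all_rel gss ain

end LAN
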