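import Mathlib

/-!
Project LAN (MP_ca3cd6_co, Lander's conjecture): definitions.

`n = p ^ a * m`, cyclic Sylow `p`-subgroup of order `q = p ^ s`, `G = ZMod q × W`, `w = |W|` coprime to `p`.
-/

set_option autoImplicit false

open scoped BigOperators
open Finset

namespace LAN

/-- `z ^ x` for `x : ZMod q`. -/
noncomputable def Z {L : Type} [Field L] {q : ℕ} (z : L) (x : ZMod q) : L := z ^ x.val

/-- automorphisms fixing all `w`-th roots of unity -/
def FixW {L : Type} [Field L] [CharZero L] (w : ℕ) (σ : L ≃ₐ[ℚ] L) : Prop :=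
  ∀ y : L, y ^ w = 1 → σ y = y

/-- elements fixed by all automorphisms which fix the `w`-th roots of unity -/
def InM {L : Type} [Field L] [CharZero L] (w : ℕ) (c : L) : Prop :=
  ∀ σ : L ≃ₐ[ℚ] L, FixW w σ → σ c = c

/-- the number field context: `L = ℚ(ζ_{p^s w})`, `z` a primitive `p^s`-th root of unity -/
structure Ctx (p s w : ℕ) (L : Type) [Field L] [NumberField L] (z : L) : Prop where
  hs : 1 ≤ s
  hw : 1 ≤ w
  cop : Nat.Coprime p w
  cyc : IsCyclotomicExtension {p ^ s * w} ℚ L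
  hz : IsPrimitiveRoot z (p ^ s)

/-- the automorphism of complex conjugation -/
def IsConj {L : Type} [Field L] [CharZero L] (τ : L ≃ₐ[ℚ] L) : Prop :=
  ∀ (φ : L →+* ℂ) (x : L), φ (τ x) = starRingEnd ℂ (φ x)

/-- sum over the complex embeddings of the squared absolute value -/
noncomputable def T {L : Type} [Field L] [NumberField L] (x : L) : ℝ :=
  ∑ φ : L →+* ℂ, ‖φ x‖ ^ 2

/-- a root of unity -/
def RtU {L : Type} [Field L] (η : L) : Prop := ∃ M : ℕ, 0 < M ∧ η ^ M = 1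

/-- functions on `ZMod (p^s)` invariant under the subgroup `{y | p * y = 0}` of order `p` -/
def Per (p s : ℕ) (h : ZMod (p ^ s) → ℤ) : Prop :=
  ∀ i y : ZMod (p ^ s), (p : ZMod (p ^ s)) * y = 0 → h (i + y) = h i

/-- autocorrelation condition for an integer valued function on `ZMod (p^s) × W` -/
structure DS (p s : ℕ) [Fact p.Prime] (W : Type) [CommGroup W] [Fintype W] [DecidableEq W]
    (f : ZMod (p ^ s) → W → ℤ) (n lam : ℤ) : Prop where
  ac : ∀ (y : ZMod (p ^ s)) (h : W),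
    ∑ i, ∑ u, f (i + y) (u * h) * f i u = lam + if y = 0 ∧ h = 1 then n else 0

/-- the normalised eigen-relation -/
structure NS (p s : ℕ) [Fact p.Prime] (W : Type) [CommGroup W]
    (f : ZMod (p ^ s) → W → ℤ) (t : (ZMod (p ^ s))ˣ) (g : W) (ε : ℤ) : Prop where
  e1 : ε = 1 ∨ ε = -1
  per : ∀ u : W, Per p s (fun i => f ((↑t⁻¹ : ZMod (p ^ s)) * i) u - ε * f i (u * g⁻¹))

/-- the embedding `ZMod p → ZMod (p^s)` onto the subgroup of order `p` -/
def iota (p s : ℕ) (l : ZMod p) : ZMod (p ^ s) := ((p ^ (s - 1) * l.val : ℕ) : ZMod (p ^ s))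

/-- autocorrelation of an integer valued function on `W` -/
def Cor {W : Type} [CommGroup W] [Fintype W] (K : W → ℤ) (h : W) : ℤ := ∑ u, K (u * h) * K u

/-- the structure on the subgroup of order `p`: values `B l u`, `K u = B 1 u - B 0 u`, and the eigen-relation -/
structure BS (p : ℕ) [Fact p.Prime] (W : Type) [CommGroup W] [Fintype W] [DecidableEq W]
    (B : ZMod p → W → ℤ) (K : W → ℤ) (τ : (ZMod p)ˣ) (g : W) (ε n : ℤ) : Prop where
  gen : ∀ x : (ZMod p)ˣ, x ∈ Subgroup.zpowers τ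
  e1 : ε = 1 ∨ ε = -1
  gp : g ^ (p - 1) = 1
  b01 : ∀ l u, B l u = 0 ∨ B l u = 1
  rel : ∀ (j : ℕ) (u : W), B (↑(τ ^ j)⁻¹ : ZMod p) u = B 0 u + ε ^ j * K (u * (g ^ j)⁻¹)
  corr : ∀ y : ZMod p, y ≠ 0 → ∀ h : W,
    ∑ l, ∑ u, (B l (u * h) - B (l + y) (u * h)) * B l u = if h = 1 then n else 0

end LAN
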