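import Pool.Agent.H49.LAN.Stmts

set_option autoImplicit false

open scoped BigOperators
open Finset

namespace LAN

namespace TRV

/-- a root of unity is sent to its inverse by complex conjugation -/
theorem conj_rtu {L : Type} [Field L] [NumberField L] {τ : L ≃ₐ[ℚ] L} (hτ : IsConj τ)
    {x : L} (hx : RtU x) : τ x * x = 1 := by
  obtain ⟨M, hM, hxM⟩ := hx
  obtain ⟨φ⟩ : Nonempty (L →+* ℂ) := inferInstance
  apply φ.injective
  rw [map_mul, map_one, hτ φ x]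
  have h1 : (φ x) ^ M = 1 := by rw [← map_pow, hxM, map_one]
  have h2 : ‖φ x‖ = 1 := Complex.norm_eq_one_of_pow_eq_one h1 hM.ne'
  have h3 : (φ x)⁻¹ = starRingEnd ℂ (φ x) := Complex.inv_eq_conj h2
  rw [← h3]
  have : φ x ≠ 0 := by
    intro h
    rw [h] at h2
    simp at h2
  exact inv_mul_cancel₀ this

theorem rtu_ne {L : Type} [Field L] {x : L} (hx : RtU x) : x ≠ 0 := by
  obtain ⟨M, hM, hxM⟩ := hx
  rintro rfl
  rw [zero_pow hM.ne'] at hxM
  exact zero_ne_one hxM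

theorem rtu_int {L : Type} [Field L] [CharZero L] {x : L} (hx : RtU x) : IsIntegral ℤ x := by
  obtain ⟨M, hM, hxM⟩ := hx
  refine ⟨Polynomial.X ^ M - 1, Polynomial.monic_X_pow_sub_C (1 : ℤ) hM.ne' |> fun h => by simpa using h, ?_⟩
  simp [hxM]

theorem rtu_norm {L : Type} [Field L] [NumberField L] {x : L} (hx : RtU x) (φ : L →+* ℂ) :
    ‖φ x‖ = 1 := by
  obtain ⟨M, hM, hxM⟩ := hx
  have h1 : (φ x) ^ M = 1 := by rw [← map_pow, hxM, map_one]
  exact Complex.norm_eq_one_of_pow_eq_one h1 hM.ne'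

theorem char_rtu {W : Type} [CommGroup W] [Fintype W] {L : Type} [Field L] (ψ : W →* Lˣ) (g : W) :
    ((ψ g : Lˣ) : L) ^ Fintype.card W = 1 := by
  rw [← Units.val_pow_eq_pow_val, ← map_pow, pow_card_eq_one, map_one, Units.val_one]

/-- product of transforms -/
theorem prod_trans {W : Type} [CommGroup W] [Fintype W] {L : Type} [Field L]
    (ψ : W →* Lˣ) (A B : W → L) :
    (∑ v, A v * ((ψ v : Lˣ) : L)) * (∑ u, B u * (((ψ u)⁻¹ : Lˣ) : L)) =
      ∑ g, (∑ u, A (u * g) * B u) * ((ψ g : Lˣ) : L) := by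
  have h1 : ∀ g : W, (∑ u, A (u * g) * B u) * ((ψ g : Lˣ) : L) =
      ∑ u, (A (u * g) * ((ψ (u * g) : Lˣ) : L)) * (B u * (((ψ u)⁻¹ : Lˣ) : L)) := by
    intro g
    rw [Finset.sum_mul]
    refine Finset.sum_congr rfl (fun u _ => ?_)
    rw [map_mul, Units.val_mul]
    have : ((ψ u : Lˣ) : L) * (((ψ u)⁻¹ : Lˣ) : L) = 1 := by
      rw [← Units.val_mul, mul_inv_cancel, Units.val_one]
    linear_combination (-(A (u * g) * B u * ((ψ g : Lˣ) : L))) * this
  rw [Finset.sum_congr rfl (fun g _ => h1 g), Finset.sum_comm]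
  rw [Finset.sum_mul_sum, Finset.sum_comm]
  refine Finset.sum_congr rfl (fun u _ => ?_)
  exact (Fintype.sum_equiv (Equiv.mulLeft u) _ _ (fun g => rfl)).symm

theorem aut_adjoin {L : Type} [Field L] [NumberField L] {q : ℕ} [NeZero q] {z : L}
    (hz : IsPrimitiveRoot z q) (σ : L ≃ₐ[ℚ] L) {x : L} (hx : x ∈ IntermediateField.adjoin ℚ {z}) :
    σ x ∈ IntermediateField.adjoin ℚ {z} := by
  have h1 : (σ z) ^ q = 1 := by rw [← map_pow, hz.pow_eq_one, map_one]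
  obtain ⟨i, _, hi⟩ := hz.eq_pow_of_pow_eq_one h1
  have h2 : (IntermediateField.adjoin ℚ {z}).map (σ : L →ₐ[ℚ] L) ≤ IntermediateField.adjoin ℚ {z} := by
    rw [IntermediateField.adjoin_map]
    rw [IntermediateField.adjoin_le_iff]
    rintro y ⟨y', hy', rfl⟩
    rw [Set.mem_singleton_iff] at hy'
    subst hy'
    show σ y' ∈ _
    rw [← hi]
    exact pow_mem (IntermediateField.mem_adjoin_simple_self ℚ y') i
  exact h2 ⟨x, hx, rfl⟩

end TRV

open TRV

theorem trv (hC : CHRStmt) : TRVStmt := by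
  intro p s _ W _ _ _ L _ _ z hctx τ hτ E n hn hcop hE hcor σ hσ hroot
  classical
  have := hctx.cyc
  have hp : p.Prime := Fact.out
  set w : ℕ := Fintype.card W with hw
  have hw0 : 0 < w := Fintype.card_pos
  have : NeZero (p ^ s * w) := ⟨(Nat.mul_pos (pow_pos hp.pos s) hw0).ne'⟩
  have : NeZero (p ^ s) := ⟨(pow_pos hp.pos s).ne'⟩
  obtain ⟨ζN, hζN⟩ := IsCyclotomicExtension.exists_isPrimitiveRoot ℚ L (Set.mem_singleton (p ^ s * w))
    (NeZero.ne _)
  have hζ : IsPrimitiveRoot (ζN ^ (p ^ s)) w := hζN.pow (NeZero.pos _) rfl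
  obtain ⟨X, hX, hXc, hXs⟩ := hC W L (ζN ^ (p ^ s)) hζ
  rw [← hw] at hXc
  simp only [← hw] at hXs
  have hn0 : (n : L) ≠ 0 := by
    have : n ≠ 0 := by omega
    exact_mod_cast this
  have hwL : (w : L) ≠ 0 := by exact_mod_cast hw0.ne'
  choose η hη1 hη2 using hroot
  have hchr : ∀ (ψ : W →* Lˣ) (g : W), RtU ((ψ g : Lˣ) : L) := fun ψ g => ⟨w, hw0, char_rtu ψ g⟩
  have hchi : ∀ (ψ : W →* Lˣ) (g : W), RtU (((ψ g)⁻¹ : Lˣ) : L) := fun ψ g => by
    rw [← map_inv]; exact hchr ψ g⁻¹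
  have hσψ : ∀ (ψ : W →* Lˣ) (g : W), σ ((ψ g : Lˣ) : L) = ((ψ g : Lˣ) : L) :=
    fun ψ g => hσ _ (char_rtu ψ g)
  have hτψ : ∀ (ψ : W →* Lˣ) (g : W), τ ((ψ g : Lˣ) : L) = (((ψ g)⁻¹ : Lˣ) : L) := by
    intro ψ g
    have h1 := conj_rtu hτ (hchr ψ g)
    rw [Units.val_inv_eq_inv_val]
    exact eq_inv_of_mul_eq_one_left h1
  -- y
  set y : W → L := fun g => (1 / (n : L)) * ∑ u, σ (E (u * g)) * τ (E u) with hy
  have hee : ∀ ψ : W →* Lˣ, (∑ v, E v * ((ψ v : Lˣ) : L)) *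
      (∑ u, τ (E u) * (((ψ u)⁻¹ : Lˣ) : L)) = n := by
    intro ψ
    rw [prod_trans ψ E (fun u => τ (E u))]
    rw [Finset.sum_congr rfl (fun g _ => by rw [hcor g])]
    simp
  have hsig : ∀ ψ : W →* Lˣ, σ (∑ v, E v * ((ψ v : Lˣ) : L)) = ∑ v, σ (E v) * ((ψ v : Lˣ) : L) := by
    intro ψ
    rw [map_sum]
    refine Finset.sum_congr rfl (fun v _ => ?_)
    rw [map_mul, hσψ]
  have hyη : ∀ ψ : W →* Lˣ, ∑ g, y g * ((ψ g : Lˣ) : L) = η ψ := by
    intro ψ
    have h1 : (∑ v, σ (E v) * ((ψ v : Lˣ) : L)) * (∑ u, τ (E u) * (((ψ u)⁻¹ : Lˣ) : L)) =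
        ∑ g, (∑ u, σ (E (u * g)) * τ (E u)) * ((ψ g : Lˣ) : L) :=
      prod_trans ψ (fun v => σ (E v)) (fun u => τ (E u))
    rw [← hsig ψ, hη2 ψ, mul_assoc, hee ψ] at h1
    have h2 : ∑ g, y g * ((ψ g : Lˣ) : L) =
        (1 / (n : L)) * ∑ g, (∑ u, σ (E (u * g)) * τ (E u)) * ((ψ g : Lˣ) : L) := by
      rw [Finset.mul_sum]
      refine Finset.sum_congr rfl (fun g _ => ?_)
      rw [hy]; ring
    rw [h2, ← h1]
    field_simp
  -- inversion
  have hinv : ∀ (Y : W → L) (g : W),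
      ∑ ψ ∈ X, (∑ h, Y h * ((ψ h : Lˣ) : L)) * (((ψ g)⁻¹ : Lˣ) : L) = w * Y g := by
    intro Y g
    have h1 : ∀ ψ ∈ X, (∑ h, Y h * ((ψ h : Lˣ) : L)) * (((ψ g)⁻¹ : Lˣ) : L) =
        ∑ h, Y h * ((ψ (h * g⁻¹) : Lˣ) : L) := by
      intro ψ _
      rw [Finset.sum_mul]
      refine Finset.sum_congr rfl (fun h _ => ?_)
      rw [map_mul, map_inv, Units.val_mul]; ring
    rw [Finset.sum_congr rfl h1, Finset.sum_comm]
    have h2 : ∀ h : W, ∑ ψ ∈ X, Y h * ((ψ (h * g⁻¹) : Lˣ) : L) = if h = g then (w : L) * Y g else 0 := by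
      intro h
      rw [← Finset.mul_sum, hXs (h * g⁻¹)]
      by_cases hh : h = g
      · subst hh; simp [mul_comm]
      · rw [if_neg hh, if_neg (by rwa [mul_inv_eq_one]), mul_zero]
    rw [Finset.sum_congr rfl (fun h _ => h2 h)]
    simp
  have hwy : ∀ g : W, (w : L) * y g = ∑ ψ ∈ X, η ψ * (((ψ g)⁻¹ : Lˣ) : L) := by
    intro g
    rw [← hinv y g]
    refine Finset.sum_congr rfl (fun ψ _ => ?_)
    rw [hyη ψ]
  -- integrality
  have hint1 : ∀ g, IsIntegral ℤ ((w : L) * y g) := by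
    intro g
    rw [hwy g]
    exact IsIntegral.sum _ (fun ψ _ => (rtu_int (hη1 ψ)).mul (rtu_int (hchi ψ g)))
  have hint2 : ∀ g, IsIntegral ℤ ((n : L) * y g) := by
    intro g
    have : (n : L) * y g = ∑ u, σ (E (u * g)) * τ (E u) := by
      rw [hy]; field_simp
    rw [this]
    refine IsIntegral.sum _ (fun u _ => ?_)
    exact ((hE (u * g)).1.map (σ : L →ₐ[ℚ] L)).mul ((hE u).1.map (τ : L →ₐ[ℚ] L))
  have hyint : ∀ g, IsIntegral ℤ (y g) := by
    intro g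
    have hco : IsCoprime (n : ℤ) (w : ℤ) := Nat.isCoprime_iff_coprime.mpr hcop
    obtain ⟨a, b, hab⟩ := hco
    have : y g = (a : L) * ((n : L) * y g) + (b : L) * ((w : L) * y g) := by
      have h1 : (a : L) * n + b * w = 1 := by exact_mod_cast hab
      linear_combination (-(y g)) * h1
    rw [this]
    have ia : IsIntegral ℤ ((a : ℤ) : L) := isIntegral_algebraMap (x := (a : ℤ))
    have ib : IsIntegral ℤ ((b : ℤ) : L) := isIntegral_algebraMap (x := (b : ℤ))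
    exact (ia.mul (hint2 g)).add (ib.mul (hint1 g))
  have hynorm : ∀ g (φ : L →+* ℂ), ‖φ (y g)‖ ≤ 1 := by
    intro g φ
    have h1 : φ ((w : L) * y g) = ∑ ψ ∈ X, φ (η ψ) * φ (((ψ g)⁻¹ : Lˣ) : L) := by
      rw [hwy g, map_sum]
      exact Finset.sum_congr rfl (fun ψ _ => map_mul φ _ _)
    have h2 : ‖φ ((w : L) * y g)‖ ≤ w := by
      rw [h1]
      refine (norm_sum_le _ _).trans ?_
      have : ∀ ψ ∈ X, ‖φ (η ψ) * φ (((ψ g)⁻¹ : Lˣ) : L)‖ = 1 := by
        intro ψ _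
        rw [norm_mul, rtu_norm (hη1 ψ) φ, rtu_norm (hchi ψ g) φ, one_mul]
      rw [Finset.sum_congr rfl this]
      simp [hXc]
    rw [map_mul, map_natCast, norm_mul, Complex.norm_natCast] at h2
    have hwpos : (0 : ℝ) < w := by exact_mod_cast hw0
    have h3 : (w : ℝ) * ‖φ (y g)‖ ≤ w * 1 := by linarith
    exact le_of_mul_le_mul_left h3 hwpos
  have hyr : ∀ g, y g ≠ 0 → RtU (y g) := by
    intro g hg
    obtain ⟨M, hM, hM2⟩ := NumberField.Embeddings.pow_eq_one_of_norm_le_one L ℂ hg (hyint g)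
      (hynorm g)
    exact ⟨M, hM, hM2⟩
  -- Parseval
  have hpars : ∑ g, y g * τ (y g) = 1 := by
    have h1 : (w : L) * ∑ g, y g * τ (y g) = w * 1 := by
      rw [Finset.mul_sum]
      have h2 : ∀ g ∈ (univ : Finset W), (w : L) * (y g * τ (y g)) =
          ∑ ψ ∈ X, η ψ * ((((ψ g)⁻¹ : Lˣ) : L) * τ (y g)) := by
        intro g _
        rw [← mul_assoc, hwy g, Finset.sum_mul]
        exact Finset.sum_congr rfl (fun ψ _ => by ring)
      rw [Finset.sum_congr rfl h2, Finset.sum_comm]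
      have h3 : ∀ ψ ∈ X, ∑ g, η ψ * ((((ψ g)⁻¹ : Lˣ) : L) * τ (y g)) = 1 := by
        intro ψ _
        rw [← Finset.mul_sum]
        have h4 : ∑ g, ((((ψ g)⁻¹ : Lˣ) : L) * τ (y g)) = τ (η ψ) := by
          rw [← hyη ψ, map_sum]
          refine Finset.sum_congr rfl (fun g _ => ?_)
          have h5 := map_mul τ (y g) ((ψ g : Lˣ) : L)
          rw [h5, hτψ, mul_comm]
        rw [h4, mul_comm]
        exact conj_rtu hτ (hη1 ψ)
      rw [Finset.sum_congr rfl h3]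
      simp [hXc]
    exact mul_left_cancel₀ hwL h1
  have hcard : (univ.filter (fun g => y g ≠ 0)).card = 1 := by
    have h1 : ∑ g, y g * τ (y g) = ((univ.filter (fun g => y g ≠ 0)).card : L) := by
      rw [Finset.card_filter]
      push_cast
      refine Finset.sum_congr rfl (fun g _ => ?_)
      by_cases hg : y g = 0
      · simp [hg]
      · rw [if_pos hg, mul_comm]
        exact conj_rtu hτ (hyr g hg)
    rw [hpars] at h1
    exact_mod_cast h1.symm
  obtain ⟨g0, hg0⟩ := Finset.card_eq_one.mp hcard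
  have hy0 : y g0 ≠ 0 := by
    have : g0 ∈ univ.filter (fun g => y g ≠ 0) := by rw [hg0]; exact Finset.mem_singleton_self _
    exact (Finset.mem_filter.mp this).2
  have hyz : ∀ g, g ≠ g0 → y g = 0 := by
    intro g hg
    by_contra h
    have : g ∈ univ.filter (fun g => y g ≠ 0) := by simp [h]
    rw [hg0, Finset.mem_singleton] at this
    exact hg this
  have hηψ : ∀ ψ : W →* Lˣ, η ψ = y g0 * ((ψ g0 : Lˣ) : L) := by
    intro ψ
    rw [← hyη ψ]
    exact Finset.sum_eq_single g0 (fun g _ hg => by rw [hyz g hg, zero_mul]) (by simp)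
  refine ⟨g0, y g0, ?_, hyr g0 hy0, ?_⟩
  · rw [hy]
    have h1 : (n : L) ∈ IntermediateField.adjoin ℚ {z} := by
      exact natCast_mem (IntermediateField.adjoin ℚ {z}) n
    have h2 : (1 / (n : L)) ∈ IntermediateField.adjoin ℚ {z} := by
      rw [one_div]; exact inv_mem h1
    exact mul_mem h2 (sum_mem (fun u _ => mul_mem (aut_adjoin hctx.hz σ (hE _).2)
      (aut_adjoin hctx.hz τ (hE _).2)))
  · intro u
    have h1 : ∀ ψ : W →* Lˣ, ∑ u, (σ (E u) - y g0 * E (u * g0⁻¹)) * ((ψ u : Lˣ) : L) = 0 := by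
      intro ψ
      have h2 : ∑ u, (σ (E u) - y g0 * E (u * g0⁻¹)) * ((ψ u : Lˣ) : L) =
          ∑ u, σ (E u) * ((ψ u : Lˣ) : L) - y g0 * ∑ u, E (u * g0⁻¹) * ((ψ u : Lˣ) : L) := by
        rw [Finset.mul_sum, ← Finset.sum_sub_distrib]
        exact Finset.sum_congr rfl (fun u _ => by ring)
      have h3 : ∑ u, E (u * g0⁻¹) * ((ψ u : Lˣ) : L) =
          ((ψ g0 : Lˣ) : L) * ∑ u, E u * ((ψ u : Lˣ) : L) := by
        rw [Finset.mul_sum]
        refine Fintype.sum_equiv (Equiv.mulRight g0⁻¹) _ _ (fun u => ?_)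
        simp only [Equiv.coe_mulRight]
        have : ψ u = ψ g0 * ψ (u * g0⁻¹) := by
          rw [← map_mul]; congr 1; rw [mul_comm u, mul_inv_cancel_left]
        rw [this, Units.val_mul]; ring
      rw [h2, h3, ← hsig ψ, hη2 ψ, hηψ ψ]; ring
    have h4 := hinv (fun u => σ (E u) - y g0 * E (u * g0⁻¹)) u
    simp only [h1, zero_mul, Finset.sum_const_zero] at h4
    have h5 : σ (E u) - y g0 * E (u * g0⁻¹) = 0 := by
      rcases mul_eq_zero.mp h4.symm with h | h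
      · exact absurd h hwL
      · exact h
    exact sub_eq_zero.mp h5

end LAN
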