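import Pool.Agent.H49.LAN.Stmts
import Pool.Agent.H49.LAN.TRV
import Pool.Agent.H83.LAN.GAL

set_option autoImplicit false

open scoped BigOperators
open Finset

namespace LAN

namespace KEO

open TRV GAL

theorem Z_sum {L : Type} [Field L] {q : ℕ} [NeZero q] {z : L} (hz : IsPrimitiveRoot z q)
    (hq : 1 < q) : ∑ y : ZMod q, Z z y = 0 := by
  have h1 : ∑ y : ZMod q, Z z y = ∑ k ∈ range q, z ^ k := by
    symm
    refine Finset.sum_bij (fun k _ => (k : ZMod q)) (fun _ _ => mem_univ _) ?_ ?_ ?_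
    · intro a ha b hb hab
      have h := congrArg ZMod.val hab
      rwa [ZMod.val_cast_of_lt (mem_range.mp ha), ZMod.val_cast_of_lt (mem_range.mp hb)] at h
    · intro b _
      exact ⟨b.val, mem_range.mpr (ZMod.val_lt b), by rw [ZMod.natCast_zmod_val]⟩
    · intro k hk
      unfold Z
      rw [ZMod.val_cast_of_lt (mem_range.mp hk)]
  rw [h1]
  exact hz.geom_sum_eq_zero hq

theorem Z_rtu {L : Type} [Field L] {q : ℕ} [NeZero q] {z : L} (hz : IsPrimitiveRoot z q)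
    (x : ZMod q) : RtU (Z z x) := by
  refine ⟨q, NeZero.pos q, ?_⟩
  unfold Z
  rw [← pow_mul, mul_comm, pow_mul, hz.pow_eq_one, one_pow]

theorem Z_mem {L : Type} [Field L] [NumberField L] {q : ℕ} (z : L) (x : ZMod q) :
    Z z x ∈ IntermediateField.adjoin ℚ {z} := by
  unfold Z
  exact pow_mem (IntermediateField.mem_adjoin_simple_self ℚ z) _

theorem conj_Z {L : Type} [Field L] [NumberField L] {q : ℕ} [NeZero q] {z : L}
    (hz : IsPrimitiveRoot z q) {τ : L ≃ₐ[ℚ] L} (hτ : IsConj τ) (x : ZMod q) :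
    τ (Z z x) = Z z (-x) := by
  have h1 := conj_rtu hτ (Z_rtu hz x)
  have h2 : Z z (-x) * Z z x = 1 := by
    rw [← Z_add hz.pow_eq_one, neg_add_cancel, Z_zero]
  exact mul_right_cancel₀ (rtu_ne (Z_rtu hz x)) (h1.trans h2.symm)

/-- the correlation of the transforms -/
theorem cor_E {p s : ℕ} [Fact p.Prime] {W : Type} [CommGroup W] [Fintype W] [DecidableEq W]
    {L : Type} [Field L] [NumberField L] {z : L} (hs : 1 ≤ s) (hz : IsPrimitiveRoot z (p ^ s))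
    {τ : L ≃ₐ[ℚ] L} (hτ : IsConj τ) {f : ZMod (p ^ s) → W → ℤ} {n lam : ℤ}
    (hf : DS p s W f n lam) (g : W) :
    ∑ u, (∑ i, ((f i (u * g) : ℤ) : L) * Z z i) * τ (∑ i, ((f i u : ℤ) : L) * Z z i) =
      if g = 1 then (n : L) else 0 := by
  have hp : p.Prime := Fact.out
  have : NeZero (p ^ s) := ⟨(pow_pos hp.pos s).ne'⟩
  have h1 : ∀ u : W, (∑ i, ((f i (u * g) : ℤ) : L) * Z z i) * τ (∑ i, ((f i u : ℤ) : L) * Z z i) =
      ∑ y, (∑ i, ((f (i + y) (u * g) * f i u : ℤ) : L)) * Z z y := by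
    intro u
    rw [map_sum]
    have h2 : ∀ i : ZMod (p ^ s), τ (((f i u : ℤ) : L) * Z z i) = ((f i u : ℤ) : L) * Z z (-i) := by
      intro i
      rw [map_mul, map_intCast, conj_Z hz hτ]
    rw [Finset.sum_congr rfl (fun i _ => h2 i), Finset.sum_mul_sum, Finset.sum_comm]
    have h3 : ∀ y : ZMod (p ^ s), (∑ i, ((f (i + y) (u * g) * f i u : ℤ) : L)) * Z z y =
        ∑ i, ((f (i + y) (u * g) * f i u : ℤ) : L) * Z z y := fun y => Finset.sum_mul _ _ _
    have h3' : ∑ y, ∑ i, ((f (i + y) (u * g) * f i u : ℤ) : L) * Z z y =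
        ∑ i, ∑ y, ((f (i + y) (u * g) * f i u : ℤ) : L) * Z z y := Finset.sum_comm
    rw [Finset.sum_congr rfl (fun y _ => h3 y), h3']
    refine Finset.sum_congr rfl (fun i _ => ?_)
    refine (Fintype.sum_equiv (Equiv.addLeft i) _ _ (fun y => ?_)).symm
    simp only [Equiv.coe_addLeft]
    have h4 : Z z (i + y) * Z z (-i) = Z z y := by
      rw [← Z_add hz.pow_eq_one]; congr 1; ring
    push_cast
    rw [← h4]; ring
  rw [Finset.sum_congr rfl (fun u _ => h1 u), Finset.sum_comm]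
  have h5 : ∀ y : ZMod (p ^ s), ∑ u, (∑ i, ((f (i + y) (u * g) * f i u : ℤ) : L)) * Z z y =
      (lam : L) * Z z y + if y = 0 then (if g = 1 then (n : L) else 0) else 0 := by
    intro y
    rw [← Finset.sum_mul, Finset.sum_comm]
    have h6 : (∑ i, ∑ u, ((f (i + y) (u * g) * f i u : ℤ) : L)) =
        ((lam + if y = 0 ∧ g = 1 then n else 0 : ℤ) : L) := by
      rw [← hf.ac y g]; push_cast; rfl
    rw [h6]
    by_cases hy : y = 0
    · subst hy
      by_cases hg : g = 1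
      · simp [hg, Z_zero]
      · simp [hg]
    · simp [hy]
  rw [Finset.sum_congr rfl (fun y _ => h5 y), Finset.sum_add_distrib, ← Finset.mul_sum,
    Z_sum hz (Nat.one_lt_pow (by omega) hp.one_lt)]
  simp

end KEO

open TRV GAL KEO

theorem keo_aux (hGAL : GALStmt) (hCNJ : CNJStmt) (hROO : ROOStmt) (hTRV : TRVStmt) (hRUO : RUOStmt)
    (hREL : RELStmt) (p s a m : ℕ) [Fact p.Prime] (W : Type) [CommGroup W] [Fintype W]
    [DecidableEq W] (f : ZMod (p ^ s) → W → ℤ) (lam : ℤ) (hp2 : p ≠ 2) (hs : 1 ≤ s)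
    (hpw : Nat.Coprime p (Fintype.card W)) (hmw : Nat.Coprime m (Fintype.card W)) (hm : 1 ≤ m)
    (hm2 : m = 1 ∨ 4 ^ (m ^ 2) < p) (hf : DS p s W f ((p ^ a * m : ℕ) : ℤ) lam)
    (t : (ZMod (p ^ s))ˣ) (L : Type) [Field L] [NumberField L] (z : L)
    (hctx : Ctx p s (Fintype.card W) L z) :
    ∃ (g : W) (j : ZMod (p ^ s)) (ε : ℤ), (ε = 1 ∨ ε = -1) ∧
    ∀ u : W, Per p s (fun i => f ((↑t⁻¹ : ZMod (p ^ s)) * i) u - ε * f (i - j) (u * g⁻¹)) := by
  classical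
  have hp : p.Prime := Fact.out
  set w : ℕ := Fintype.card W with hw
  have hw0 : 0 < w := Fintype.card_pos
  have hN0 : 0 < p ^ s * w := Nat.mul_pos (pow_pos hp.pos s) hw0
  have : NeZero (p ^ s * w) := ⟨hN0.ne'⟩
  have : NeZero (p ^ s) := ⟨(pow_pos hp.pos s).ne'⟩
  have hz : IsPrimitiveRoot z (p ^ s) := hctx.hz
  obtain ⟨τ, hτ⟩ := hCNJ (p ^ s * w) L hctx.cyc
  obtain ⟨σ, hσ, hσZ⟩ := hGAL p s w L z hctx t
  set E : W → L := fun u => ∑ i, ((f i u : ℤ) : L) * Z z i with hE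
  have hcop : Nat.Coprime (p ^ a * m) w := Nat.Coprime.mul_left (Nat.Coprime.pow_left a hpw) hmw
  have hn : 1 ≤ p ^ a * m := Nat.mul_pos (pow_pos hp.pos a) hm
  have hEi : ∀ u, IsIntegral ℤ (E u) ∧ E u ∈ IntermediateField.adjoin ℚ {z} := by
    intro u
    constructor
    · refine IsIntegral.sum _ (fun i _ => ?_)
      exact (isIntegral_algebraMap (x := (f i u : ℤ))).mul (rtu_int (Z_rtu hz i))
    · exact sum_mem (fun i _ => mul_mem (intCast_mem (IntermediateField.adjoin ℚ {z}) (f i u))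
        (Z_mem z i))
  have hcor : ∀ g, ∑ u, E (u * g) * τ (E u) = if g = 1 then ((p ^ a * m : ℕ) : L) else 0 := by
    intro g
    have := cor_E hs hz hτ hf g
    rw [hE]
    simpa only [Int.cast_natCast] using this
  have hχ : ∀ (ψ : W →* Lˣ), (∑ u, E u * ((ψ u : Lˣ) : L)) * τ (∑ u, E u * ((ψ u : Lˣ) : L)) =
      (p : L) ^ a * (m : L) := by
    intro ψ
    have h1 : τ (∑ u, E u * ((ψ u : Lˣ) : L)) = ∑ u, τ (E u) * (((ψ u)⁻¹ : Lˣ) : L) := by
      rw [map_sum]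
      refine Finset.sum_congr rfl (fun u _ => ?_)
      have h2 := map_mul τ (E u) ((ψ u : Lˣ) : L)
      have h3 := conj_rtu hτ (⟨w, hw0, char_rtu ψ u⟩ : RtU ((ψ u : Lˣ) : L))
      rw [h2, Units.val_inv_eq_inv_val, eq_inv_of_mul_eq_one_left h3]
    rw [h1, prod_trans ψ E (fun u => τ (E u)), Finset.sum_congr rfl (fun g _ => by rw [hcor g])]
    simp
  have hint : ∀ (ψ : W →* Lˣ), IsIntegral ℤ (∑ u, E u * ((ψ u : Lˣ) : L)) := by
    intro ψ
    refine IsIntegral.sum _ (fun u _ => ?_)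
    exact (hEi u).1.mul (rtu_int ⟨w, hw0, char_rtu ψ u⟩)
  obtain ⟨g, η, hηmem, hηr, hgη⟩ := hTRV p s W L z hctx τ hτ E (p ^ a * m) hn hcop hEi hcor σ hσ
    (fun ψ => hROO p s w L z hctx τ hτ _ a m (hint ψ) (hχ ψ) hm hm2 σ hσ)
  obtain ⟨j, hj⟩ := hRUO p s L z hp2 hs hz η hηmem hηr
  have hε : ∃ ε : ℤ, (ε = 1 ∨ ε = -1) ∧ η = (ε : L) * Z z j := by
    rcases hj with hj | hj
    · exact ⟨1, Or.inl rfl, by rw [hj]; simp⟩
    · exact ⟨-1, Or.inr rfl, by rw [hj]; simp⟩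
  obtain ⟨ε, hε1, hε2⟩ := hε
  refine ⟨g, j, ε, hε1, fun u => ?_⟩
  have hsum : ∑ x : ZMod (p ^ s), ((f ((↑t⁻¹ : ZMod (p ^ s)) * x) u - ε * f (x - j) (u * g⁻¹) : ℤ) : L)
      * Z z x = 0 := by
    have h1 : σ (E u) = ∑ x : ZMod (p ^ s), ((f ((↑t⁻¹ : ZMod (p ^ s)) * x) u : ℤ) : L) * Z z x := by
      rw [hE, map_sum]
      refine Fintype.sum_equiv (Units.mulLeft t) _ _ (fun i => ?_)
      simp only [Units.mulLeft_apply]
      rw [map_mul, map_intCast, hσZ i, Units.inv_mul_cancel_left]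
    have h2 : η * E (u * g⁻¹) = ∑ x : ZMod (p ^ s), ((ε * f (x - j) (u * g⁻¹) : ℤ) : L) * Z z x := by
      rw [hE, hε2, Finset.mul_sum]
      refine Fintype.sum_equiv (Equiv.addRight j) _ _ (fun i => ?_)
      simp only [Equiv.coe_addRight]
      rw [add_sub_cancel_right, Z_add hz.pow_eq_one]
      push_cast
      ring
    have h3 := hgη u
    rw [h1, h2] at h3
    rw [← sub_eq_zero, ← Finset.sum_sub_distrib] at h3
    rw [← h3]
    refine Finset.sum_congr rfl (fun x _ => ?_)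
    push_cast
    ring
  have h4 := hREL p s w L z hctx
    (fun x => ((f ((↑t⁻¹ : ZMod (p ^ s)) * x) u - ε * f (x - j) (u * g⁻¹) : ℤ) : L))
    (fun x ρ _ => map_intCast ρ _) hsum
  intro i y hy
  have h5 := h4 i y hy
  exact_mod_cast h5

theorem exists_cyc (N w q : ℕ) (hN : 0 < N) (h : N = w * q) : ∃ z : CyclotomicField N ℚ,
    IsCyclotomicExtension {N} ℚ (CyclotomicField N ℚ) ∧ IsPrimitiveRoot z q := by
  have : NeZero N := ⟨hN.ne'⟩
  have : NeZero ((N : ℕ) : ℚ) := ⟨Nat.cast_ne_zero.mpr hN.ne'⟩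
  have h1 : IsCyclotomicExtension {N} ℚ (CyclotomicField N ℚ) :=
    CyclotomicField.isCyclotomicExtension N ℚ
  exact ⟨(IsCyclotomicExtension.zeta N ℚ (CyclotomicField N ℚ)) ^ w, h1,
    (IsCyclotomicExtension.zeta_spec N ℚ (CyclotomicField N ℚ)).pow hN h⟩

theorem keo (hGAL : GALStmt) (hCNJ : CNJStmt) (hROO : ROOStmt) (hTRV : TRVStmt) (hRUO : RUOStmt)
    (hREL : RELStmt) : KEOStmt := by
  intro p s a m _ W _ _ _ f lam hp2 hs hpw hmw hm hm2 hf t
  have hp : p.Prime := Fact.out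
  have hN0 : 0 < p ^ s * Fintype.card W := Nat.mul_pos (pow_pos hp.pos s) Fintype.card_pos
  obtain ⟨z, hz1, hz2⟩ := exists_cyc (p ^ s * Fintype.card W) (Fintype.card W) (p ^ s) hN0
    (mul_comm _ _)
  exact keo_aux hGAL hCNJ hROO hTRV hRUO hREL p s a m W f lam hp2 hs hpw hmw hm hm2 hf t
    (CyclotomicField (p ^ s * Fintype.card W) ℚ) z ⟨hs, Fintype.card_pos, hpw, hz1, hz2⟩

end LAN
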