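import Pool.Agent.H49.LAN.Stmts
import Pool.Agent.H49.LAN.ARD
import Pool.Agent.H49.LAN.KEO

set_option autoImplicit false

open scoped BigOperators
open Finset

namespace LAN

namespace Fin

/-- counting identity -/
theorem ds_sum {p s : ℕ} [Fact p.Prime] {W : Type} [CommGroup W] [Fintype W] [DecidableEq W]
    {f : ZMod (p ^ s) → W → ℤ} {n lam : ℤ} (hf : DS p s W f n lam) :
    (∑ i, ∑ u, f i u) ^ 2 = n + lam * ((p ^ s * Fintype.card W : ℕ) : ℤ) := by
  have hp : p.Prime := Fact.out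
  have : NeZero (p ^ s) := ⟨(pow_pos hp.pos s).ne'⟩
  have h1 : ∑ y : ZMod (p ^ s), ∑ h : W, (∑ i, ∑ u, f (i + y) (u * h) * f i u) =
      ∑ y : ZMod (p ^ s), ∑ h : W, (lam + if y = 0 ∧ h = 1 then n else 0) :=
    Finset.sum_congr rfl (fun y _ => Finset.sum_congr rfl (fun h _ => hf.ac y h))
  have h2 : ∑ y : ZMod (p ^ s), ∑ h : W, (lam + if y = 0 ∧ h = 1 then n else 0) =
      n + lam * ((p ^ s * Fintype.card W : ℕ) : ℤ) := by
    have : ∀ y : ZMod (p ^ s), ∑ h : W, (lam + if y = 0 ∧ h = 1 then n else 0) =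
        lam * Fintype.card W + if y = 0 then n else 0 := by
      intro y
      rw [Finset.sum_add_distrib]
      by_cases hy : y = 0
      · simp [hy, mul_comm]
      · simp [hy, mul_comm]
    rw [Finset.sum_congr rfl (fun y _ => this y), Finset.sum_add_distrib]
    simp [ZMod.card]
    ring
  have h3 : ∑ y : ZMod (p ^ s), ∑ h : W, (∑ i, ∑ u, f (i + y) (u * h) * f i u) =
      (∑ i, ∑ u, f i u) ^ 2 := by
    have e1 : ∑ y : ZMod (p ^ s), ∑ h : W, (∑ i, ∑ u, f (i + y) (u * h) * f i u) =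
        ∑ i, ∑ u, ∑ y : ZMod (p ^ s), ∑ h : W, f (i + y) (u * h) * f i u := by
      have : ∀ y : ZMod (p ^ s), ∑ h : W, (∑ i, ∑ u, f (i + y) (u * h) * f i u) =
          ∑ i, ∑ u, ∑ h : W, f (i + y) (u * h) * f i u := by
        intro y
        rw [Finset.sum_comm]
        refine Finset.sum_congr rfl (fun i _ => ?_)
        rw [Finset.sum_comm]
      rw [Finset.sum_congr rfl (fun y _ => this y), Finset.sum_comm]
      refine Finset.sum_congr rfl (fun i _ => ?_)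
      rw [Finset.sum_comm]
    rw [e1]
    have e2 : ∀ (i : ZMod (p ^ s)) (u : W), ∑ y : ZMod (p ^ s), ∑ h : W, f (i + y) (u * h) * f i u =
        (∑ i, ∑ u, f i u) * f i u := by
      intro i u
      rw [Finset.sum_mul]
      refine Fintype.sum_equiv (Equiv.addLeft i) _ _ (fun y => ?_)
      rw [Finset.sum_mul]
      refine Fintype.sum_equiv (Equiv.mulLeft u) _ _ (fun h => ?_)
      simp
    rw [Finset.sum_congr rfl (fun i _ => Finset.sum_congr rfl (fun u _ => e2 i u))]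
    rw [sq]
    conv_rhs => rw [Finset.mul_sum]
    refine Finset.sum_congr rfl (fun i _ => ?_)
    rw [Finset.mul_sum]
  rw [← h3, h1, h2]

theorem sylow_any {G : Type} [CommGroup G] [Fintype G] {p : ℕ} [Fact p.Prime] (P : Sylow p G)
    (h : IsCyclic ↥(P.toSubgroup)) : ∃ P : Sylow p G, IsCyclic ↥(P.toSubgroup) := ⟨P, h⟩

end Fin

/-- large primes -/
theorem finD (hGRP : GRPStmt) (hNUM : NUMStmt) :
    ∀ (G : Type) [CommGroup G] [Fintype G] [DecidableEq G] (D : Finset G) (lam : ℕ),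
      1 < D.card →
      D.card + 1 < Fintype.card G →
      (∀ g : G, g ≠ 1 → ((D ×ˢ D).filter (fun x => x.1 * x.2⁻¹ = g)).card = lam) →
      ∀ (p a m : ℕ) [Fact p.Prime],
        p ∣ Fintype.card G → 1 ≤ a → 2 ≤ m → ¬ p ∣ m →
        (D.card : ℤ) - (lam : ℤ) = (p : ℤ) ^ a * (m : ℤ) →
        Nat.Coprime m (Fintype.card G) → 4 ^ (m ^ 2) < p →
        ∀ P : Sylow p G, ¬ IsCyclic ↥(P.toSubgroup) := by
  intro G _ _ _ D lam hD1 hD2 hDS p a m _ hpG ha hm hpm hn hmG hpbig P hP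
  have hp : p.Prime := Fact.out
  obtain ⟨s, W, _, _, _, f, hs, hpw, hcard, h01, hsum, hf⟩ := hGRP G D lam hDS p hpG ⟨P, hP⟩
  have h4 : 4 ≤ m ^ 2 := by nlinarith
  have h256 : 4 ^ 4 ≤ 4 ^ (m ^ 2) := Nat.pow_le_pow_right (by norm_num) h4
  have h11 : 11 ≤ p := by
    have : (4 : ℕ) ^ 4 = 256 := by norm_num
    omega
  have hnn : (D.card : ℤ) - (lam : ℤ) = ((p ^ a * m : ℕ) : ℤ) := by push_cast; exact hn
  rw [hnn] at hf
  have hmw : Nat.Coprime m (Fintype.card W) := by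
    rw [← hcard] at hmG
    exact Nat.Coprime.coprime_mul_left_right hmG
  obtain ⟨κ, S, r, hκ, hr1, hr2, hS, hS2, hine, _⟩ := hNUM p s a m W f lam (by omega) hs hpw hmw
    (by omega) (Or.inr hpbig) h01 hf
  rw [hsum] at hine
  refine ard p a m (Fintype.card W) D.card lam s r κ S hp h11 hm hpm hs ha ?_ (by omega) ?_
    Fintype.card_pos hκ hr1 hr2 hS hS2 hine
  · rw [hcard]; exact hmG
  · rw [hcard]; omega

/-- order a power of two -/
theorem fin2 (hGRP : GRPStmt) (hSQR : SQRStmt) (hTWO : TWOStmt) :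
    ∀ (G : Type) [CommGroup G] [Fintype G] [DecidableEq G] (D : Finset G) (lam : ℕ),
      1 < D.card →
      D.card + 1 < Fintype.card G →
      (∀ g : G, g ≠ 1 → ((D ×ˢ D).filter (fun x => x.1 * x.2⁻¹ = g)).card = lam) →
      ∀ a : ℕ, 1 ≤ a → (D.card : ℤ) - (lam : ℤ) = (2 : ℤ) ^ a → 4 ∣ Fintype.card G →
        ∀ P : Sylow 2 G, ¬ IsCyclic ↥(P.toSubgroup) := by
  intro G _ _ _ D lam hD1 hD2 hDS a ha hn h4 P hP
  have h2G : 2 ∣ Fintype.card G := dvd_trans (by norm_num) h4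
  obtain ⟨s, W, _, _, _, f, hs, hpw, hcard, h01, hsum, hf⟩ := hGRP G D lam hDS 2 h2G ⟨P, hP⟩
  have hs2 : 2 ≤ s := by
    by_contra hcon
    have hs1 : s = 1 := by omega
    subst hs1
    rw [← hcard] at h4
    have h5 : 2 ∣ Fintype.card W := by
      obtain ⟨x, hx⟩ := h4
      exact ⟨x, by omega⟩
    exact ((Nat.Prime.coprime_iff_not_dvd Nat.prime_two).mp hpw) h5
  rw [hn] at hf
  obtain ⟨c, hc⟩ := hSQR 2 s W f _ lam hf (by rw [hcard]; exact h2G)
  have haeven : ∃ b, a = 2 * b ∧ 1 ≤ b := by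
    have hc2 : c.natAbs ^ 2 = 2 ^ a := by
      have : ((c.natAbs : ℤ)) ^ 2 = ((2 : ℕ) : ℤ) ^ a := by rw [Int.natAbs_sq]; exact hc.symm
      exact_mod_cast this
    obtain ⟨b, hb1, hb2⟩ := (Nat.dvd_prime_pow Nat.prime_two).mp (Dvd.intro_left _ (by rw [← sq]; exact hc2) : c.natAbs ∣ 2 ^ a)
    rw [hb2, ← pow_mul] at hc2
    have := Nat.pow_right_injective (le_refl 2) hc2
    exact ⟨b, by omega, by omega⟩
  obtain ⟨b, hb, hb1⟩ := haeven
  obtain ⟨s', hs'⟩ : ∃ s', s = s' + 1 := ⟨s - 1, by omega⟩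
  subst hs'
  subst hb
  have hf' : DS 2 (s' + 1) W f ((2 ^ (2 * b) : ℕ) : ℤ) lam := by push_cast; exact hf
  exact hTWO s' b W f lam (by omega) hb1 hpw h01 hf'

/-- order a power of three -/
theorem fin3 (hGRP : GRPStmt) (hNUM : NUMStmt) (hAR3 : AR3Stmt) :
    ∀ (G : Type) [CommGroup G] [Fintype G] [DecidableEq G] (D : Finset G) (lam : ℕ),
      1 < D.card →
      D.card + 1 < Fintype.card G →
      (∀ g : G, g ≠ 1 → ((D ×ˢ D).filter (fun x => x.1 * x.2⁻¹ = g)).card = lam) →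
      ∀ a : ℕ, 1 ≤ a → (D.card : ℤ) - (lam : ℤ) = (3 : ℤ) ^ a → 3 ∣ Fintype.card G →
        ∀ P : Sylow 3 G, IsCyclic ↥(P.toSubgroup) →
        ¬ 9 ∣ Fintype.card G ∧ ∃ b : ℕ, 1 ≤ b ∧ a = 2 * b + 2 ∧
          (2 * (Fintype.card G : ℤ) = 75 * (3 ^ b) ^ 2 - 3 ∨
            4 * (Fintype.card G : ℤ) = 147 * (3 ^ b) ^ 2 - 3 ∨
            5 * (Fintype.card G : ℤ) = 192 * (3 ^ b) ^ 2 - 3) := by
  intro G _ _ _ D lam hD1 hD2 hDS a ha hn h3G P hP
  have : Fact (Nat.Prime 3) := ⟨Nat.prime_three⟩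
  obtain ⟨s, W, _, _, _, f, hs, hpw, hcard, h01, hsum, hf⟩ := hGRP G D lam hDS 3 h3G ⟨P, hP⟩
  have hnn : (D.card : ℤ) - (lam : ℤ) = ((3 ^ a * 1 : ℕ) : ℤ) := by push_cast; rw [mul_one]; exact hn
  rw [hnn] at hf
  obtain ⟨κ, S, r, hκ, hr1, hr2, hS, hS2, hine, hlow⟩ := hNUM 3 s a 1 W f lam (by norm_num) hs hpw
    (Nat.coprime_one_left _) (le_refl 1) (Or.inl rfl) h01 hf
  have hr : r = 1 ∨ r = 2 := by
    have h1 : r ≤ 2 := Nat.le_of_dvd (by norm_num) hr1
    have h2 : r ≠ 0 := by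
      rintro rfl
      simp at hr1
    omega
  have hr' : r = 2 := by
    rcases hr with hr | hr
    · exfalso
      subst hr
      obtain ⟨a', rfl⟩ : ∃ a', a = a' + 1 := ⟨a - 1, by omega⟩
      have e1 : S = 2 * 3 ^ a' := by
        push_cast at hS
        rw [pow_succ] at hS
        linarith
      have e2 : (2 : ℤ) ∣ 3 ^ a' := by
        obtain ⟨x, hx⟩ := hS2
        rw [e1] at hx
        push_cast at hx
        refine ⟨x, ?_⟩
        rw [pow_succ] at hx
        linarith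
      have e3 : Odd ((3 : ℤ) ^ a') := Odd.pow (by decide)
      obtain ⟨x, hx⟩ := e2
      obtain ⟨y, hy⟩ := e3
      omega
    · exact hr
  obtain ⟨l1, l2, l3⟩ := hlow rfl hr'
  have hds := Fin.ds_sum hf
  rw [hsum] at hds l1 l2
  have hcz : ((3 ^ s * Fintype.card W : ℕ) : ℤ) = (3 : ℤ) ^ s * (Fintype.card W : ℤ) := by push_cast; ring
  have hlam : 0 < lam := by
    by_contra hcon
    have h0 : lam = 0 := by omega
    subst h0
    -- two distinct elements of `D` give a nontrivial difference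
    obtain ⟨x, hx, y, hy, hxy⟩ := Finset.one_lt_card.mp hD1
    have h1 := hDS (x * y⁻¹) (by rwa [Ne, mul_inv_eq_one])
    rw [Finset.card_eq_zero] at h1
    have h2 : (x, y) ∈ (D ×ˢ D).filter (fun z => z.1 * z.2⁻¹ = x * y⁻¹) := by
      simp [hx, hy]
    rw [h1] at h2
    exact absurd h2 (Finset.notMem_empty _)
  have hcG : (Fintype.card G : ℤ) = (3 : ℤ) ^ s * (Fintype.card W : ℤ) := by
    rw [← hcard]; push_cast; ring
  have h9 := hAR3 a (Fintype.card W) s κ (D.card : ℤ) (lam : ℤ) hs ha hpw (by exact_mod_cast hlam)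
    (by linarith) ?_ ?_ ?_ ?_ ?_ ?_
  · obtain ⟨hs1, b, hb1, hb2, hb3⟩ := h9
    subst hs1
    have hG : (Fintype.card G : ℤ) = 3 * (Fintype.card W : ℤ) := by rw [hcG]; ring
    refine ⟨?_, b, hb1, hb2, ?_⟩
    · intro h9'
      rw [← hcard] at h9'
      have h5 : 3 ∣ Fintype.card W := by
        obtain ⟨x, hx⟩ := h9'
        exact ⟨x, by omega⟩
      exact ((Nat.Prime.coprime_iff_not_dvd Nat.prime_three).mp hpw) h5
    · rw [hG]; exact hb3
  · rw [← hcG]
    have : ((D.card + 1 : ℕ) : ℤ) < (Fintype.card G : ℤ) := by exact_mod_cast hD2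
    push_cast at this
    linarith
  · rw [hds, hcz]; push_cast; ring
  · rw [hκ]; push_cast; ring
  · push_cast at l1; linarith
  · rw [hcz] at l2; push_cast at l2; linarith
  · have : ((3 ^ a * 1 : ℕ) : ℤ) ≤ (Fintype.card W : ℤ) := by exact_mod_cast l3
    push_cast at this
    linarith

/-- the cofactor is not a square -/
theorem finA (hGRA : GRAStmt) (hASQ : ASQStmt) (hCNJ : CNJStmt) :
    ∀ (G : Type) [CommGroup G] [Fintype G] [DecidableEq G] (D : Finset G) (lam : ℕ),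
      1 < D.card →
      D.card + 1 < Fintype.card G →
      (∀ g : G, g ≠ 1 → ((D ×ˢ D).filter (fun x => x.1 * x.2⁻¹ = g)).card = lam) →
      ∀ p a m : ℕ, p.Prime → (D.card : ℤ) - (lam : ℤ) = (p : ℤ) ^ a * (m : ℤ) →
        ¬ IsSquare m → m ^ 2 + m + 1 < p → ¬ p ∣ Fintype.card G := by
  intro G _ _ _ D lam hD1 hD2 hDS p a m hp hn hm hbig hpG
  have : Fact p.Prime := ⟨hp⟩
  have hp2 : p ≠ 2 := by
    rintro rfl
    have : m = 0 := by nlinarith
    subst this
    exact hm ⟨0, rfl⟩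
  obtain ⟨f, c, hf⟩ := hGRA G D lam hDS p hpG
  have hpp : p = 1 * p := (one_mul p).symm
  obtain ⟨z, hcyc, hz⟩ := exists_cyc p 1 p hp.pos hpp
  have : NeZero p := ⟨hp.ne_zero⟩
  obtain ⟨τ, hτ⟩ := hCNJ p (CyclotomicField p ℚ) hcyc
  refine hm (hASQ p a m (CyclotomicField p ℚ) z hp2 hz hcyc τ hτ
    (∑ i : ZMod p, ((f i : ℤ) : CyclotomicField p ℚ) * Z z i) ?_ ?_ hbig)
  · refine IsIntegral.sum _ (fun i _ => ?_)
    exact (isIntegral_algebraMap (x := (f i : ℤ))).mul (TRV.rtu_int (KEO.Z_rtu hz i))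
  · rw [map_sum]
    have h2 : ∀ i : ZMod p, τ (((f i : ℤ) : CyclotomicField p ℚ) * Z z i) =
        ((f i : ℤ) : CyclotomicField p ℚ) * Z z (-i) := by
      intro i
      rw [map_mul, map_intCast, KEO.conj_Z hz hτ]
    rw [Finset.sum_congr rfl (fun i _ => h2 i), Finset.sum_mul_sum, Finset.sum_comm]
    have h3 : ∀ i : ZMod p, ∑ j : ZMod p, ((f j : ℤ) : CyclotomicField p ℚ) * Z z j *
        (((f i : ℤ) : CyclotomicField p ℚ) * Z z (-i)) =
        ∑ y : ZMod p, ((f (i + y) * f i : ℤ) : CyclotomicField p ℚ) * Z z y := by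
      intro i
      refine (Fintype.sum_equiv (Equiv.addLeft i) _ _ (fun y => ?_)).symm
      simp only [Equiv.coe_addLeft]
      have h4 : Z z (i + y) * Z z (-i) = Z z y := by
        rw [← GAL.Z_add hz.pow_eq_one]; congr 1; ring
      push_cast
      rw [← h4]; ring
    rw [Finset.sum_congr rfl (fun i _ => h3 i), Finset.sum_comm]
    have h5 : ∀ y : ZMod p, ∑ i : ZMod p, ((f (i + y) * f i : ℤ) : CyclotomicField p ℚ) * Z z y =
        (c : CyclotomicField p ℚ) * Z z y + if y = 0 then ((p : CyclotomicField p ℚ) ^ a * m) else 0 := by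
      intro y
      rw [← Finset.sum_mul]
      have h6 : ∑ i : ZMod p, ((f (i + y) * f i : ℤ) : CyclotomicField p ℚ) =
          ((c + if y = 0 then (p : ℤ) ^ a * (m : ℤ) else 0 : ℤ) : CyclotomicField p ℚ) := by
        rw [← hn, ← hf y]; push_cast; rfl
      rw [h6]
      by_cases hy : y = 0
      · subst hy; simp [GAL.Z_zero]
      · simp [hy]
    rw [Finset.sum_congr rfl (fun y _ => h5 y), Finset.sum_add_distrib, ← Finset.mul_sum,
      KEO.Z_sum hz hp.one_lt]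
    simp

end LAN
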