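import Pool.Agent.H49.LAN.Defs

set_option autoImplicit false

open scoped BigOperators
open Finset

namespace LAN

/-! ### Block N : number fields -/

def GALStmt : Prop := ∀ (p s w : ℕ) [Fact p.Prime] (L : Type) [Field L] [NumberField L] (z : L),
  Ctx p s w L z → ∀ t : (ZMod (p ^ s))ˣ, ∃ σ : L ≃ₐ[ℚ] L, FixW w σ ∧
    ∀ x : ZMod (p ^ s), σ (Z z x) = Z z ((t : ZMod (p ^ s)) * x)

/-- every automorphism fixing the `w`-th roots of unity acts on powers of `z` by a unit -/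
def GA2Stmt : Prop := ∀ (p s w : ℕ) [Fact p.Prime] (L : Type) [Field L] [NumberField L] (z : L),
  Ctx p s w L z → ∀ σ : L ≃ₐ[ℚ] L, ∃ t : (ZMod (p ^ s))ˣ,
    ∀ x : ZMod (p ^ s), σ (Z z x) = Z z ((t : ZMod (p ^ s)) * x)

def CNJStmt : Prop := ∀ (N : ℕ) (L : Type) [Field L] [NumberField L] [NeZero N],
  IsCyclotomicExtension {N} ℚ L → ∃ τ : L ≃ₐ[ℚ] L, IsConj τ

def DIVStmt : Prop := ∀ (p s w : ℕ) [Fact p.Prime] (L : Type) [Field L] [NumberField L] (z : L),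
  Ctx p s w L z → ∀ σ : L ≃ₐ[ℚ] L, FixW w σ → ∀ (x y c : L) (a : ℕ),
    IsIntegral ℤ x → IsIntegral ℤ y → IsIntegral ℤ c → x * y = (p : L) ^ a * c →
    IsIntegral ℤ (σ x * y / (p : L) ^ a)

def REPStmt : Prop := ∀ (p s w : ℕ) [Fact p.Prime] (L : Type) [Field L] [NumberField L] (z : L),
  Ctx p s w L z → ∀ u : L, IsIntegral ℤ u → ∃ c : ZMod (p ^ s) → L,
    (∀ x, IsIntegral ℤ (c x) ∧ InM w (c x)) ∧ u = ∑ x, c x * Z z x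

def RELStmt : Prop := ∀ (p s w : ℕ) [Fact p.Prime] (L : Type) [Field L] [NumberField L] (z : L),
  Ctx p s w L z → ∀ c : ZMod (p ^ s) → L, (∀ x, InM w (c x)) → ∑ x, c x * Z z x = 0 →
    ∀ x y : ZMod (p ^ s), (p : ZMod (p ^ s)) * y = 0 → c (x + y) = c x

def RE0Stmt : Prop := ∀ (p s : ℕ) [Fact p.Prime] (L : Type) [Field L] (z : L),
  1 ≤ s → IsPrimitiveRoot z (p ^ s) → ∀ c : ZMod (p ^ s) → L,
    (∀ x y : ZMod (p ^ s), (p : ZMod (p ^ s)) * y = 0 → c (x + y) = c x) → ∑ x, c x * Z z x = 0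

def AMGStmt : Prop := ∀ (L : Type) [Field L] [NumberField L] (c : L),
  IsIntegral ℤ c → c ≠ 0 → (Fintype.card (L →+* ℂ) : ℝ) ≤ T c

def TRCStmt : Prop := ∀ (p s w : ℕ) [Fact p.Prime] (L : Type) [Field L] [NumberField L] (z : L),
  Ctx p s w L z → ∀ c : ZMod (p ^ s) → L, (∀ x, InM w (c x)) →
    2 * ((p : ℝ) - 1) * T (∑ x, c x * Z z x) =
      ∑ x, ∑ y ∈ univ.filter (fun y => (p : ZMod (p ^ s)) * y = 0), T (c (x + y) - c x)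

/-- root of unity in `ℚ(z)`, `p` odd -/
def RUOStmt : Prop := ∀ (p s : ℕ) [Fact p.Prime] (L : Type) [Field L] [NumberField L] (z : L),
  p ≠ 2 → 1 ≤ s → IsPrimitiveRoot z (p ^ s) → ∀ η : L, η ∈ IntermediateField.adjoin ℚ {z} →
    RtU η → ∃ j : ZMod (p ^ s), η = Z z j ∨ η = - Z z j

/-- root of unity in `ℚ(z)`, `p = 2` -/
def RU2Stmt : Prop := ∀ (s : ℕ) (L : Type) [Field L] [NumberField L] (z : L),
  1 ≤ s → IsPrimitiveRoot z (2 ^ s) → ∀ η : L, η ∈ IntermediateField.adjoin ℚ {z} →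
    RtU η → ∃ j : ZMod (2 ^ s), η = Z z j

/-! ### Block M : the monomial lemma -/

def MAJStmt : Prop := ∀ (p s : ℕ) [Fact p.Prime], 1 ≤ s → ∀ (α : Type) [DecidableEq α]
  (c : ZMod (p ^ s) → α) (B : ℕ), 2 * B ^ 2 + B < p →
  ((univ ×ˢ univ : Finset (ZMod (p ^ s) × ZMod (p ^ s))).filter
    (fun xy => (p : ZMod (p ^ s)) * xy.2 = 0 ∧ c (xy.1 + xy.2) ≠ c xy.1)).card ≤ 2 * B * (p - 1) →
  ∃ b : ZMod (p ^ s) → ZMod (p ^ s),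
    (∀ x y : ZMod (p ^ s), (p : ZMod (p ^ s)) * y = 0 → b (x + y) = b x) ∧
    (univ.filter (fun x => c x ≠ c (b x))).card ≤ B

def DIRStmt : Prop := ∀ (p s : ℕ) [Fact p.Prime], 1 ≤ s → ∀ S : Finset (ZMod (p ^ s)),
  4 ^ S.card < p → ∃ t : (ZMod (p ^ s))ˣ, ∀ x ∈ S,
    4 * ((t : ZMod (p ^ s)) * x).valMinAbs.natAbs < p ^ s

def LAUStmt : Prop := ∀ (p s : ℕ) [Fact p.Prime] (L : Type) [Field L]
  (A B : ZMod (p ^ s) → L) (S : Finset (ZMod (p ^ s))) (t : (ZMod (p ^ s))ˣ),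
  (∀ x, A x ≠ 0 ↔ x ∈ S) → (∀ x, B x ≠ 0 ↔ x ∈ S) →
  (∀ x ∈ S, 4 * ((t : ZMod (p ^ s)) * x).valMinAbs.natAbs < p ^ s) →
  (∀ d : ZMod (p ^ s), d ≠ 0 → ∑ y, A (y + d) * B y = 0) → S.card ≤ 1

def MONStmt : Prop := ∀ (p s w : ℕ) [Fact p.Prime] (L : Type) [Field L] [NumberField L] (z : L),
  Ctx p s w L z → ∀ (u : L) (m : ℕ), 1 ≤ m → 4 ^ (m ^ 2) < p → IsIntegral ℤ u →
    (∀ φ : L →+* ℂ, ‖φ u‖ = m) →
    ∃ (c : L) (x : ZMod (p ^ s)), InM w c ∧ IsIntegral ℤ c ∧ u = c * Z z x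

def COCStmt : Prop := ∀ (p s w : ℕ) [Fact p.Prime] (L : Type) [Field L] [NumberField L] (z : L),
  Ctx p s w L z → ∀ σ : L ≃ₐ[ℚ] L, FixW w σ → ∀ (e c : L) (x : ZMod (p ^ s)),
    e ≠ 0 → InM w c → σ e = c * Z z x * e → RtU c

def ROOStmt : Prop := ∀ (p s w : ℕ) [Fact p.Prime] (L : Type) [Field L] [NumberField L] (z : L),
  Ctx p s w L z → ∀ τ : L ≃ₐ[ℚ] L, IsConj τ → ∀ (e : L) (a m : ℕ), IsIntegral ℤ e →
    e * τ e = (p : L) ^ a * (m : L) → 1 ≤ m → (m = 1 ∨ 4 ^ (m ^ 2) < p) →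
    ∀ σ : L ≃ₐ[ℚ] L, FixW w σ → ∃ η : L, RtU η ∧ σ e = η * e

/-! ### Block U : the torsion unit step -/

def CHRStmt : Prop := ∀ (W : Type) [CommGroup W] [Fintype W] [DecidableEq W]
  (L : Type) [Field L] [CharZero L] (ζ : L), IsPrimitiveRoot ζ (Fintype.card W) →
  ∃ X : Finset (W →* Lˣ), (∀ ψ, ψ ∈ X) ∧ X.card = Fintype.card W ∧
    (∀ g : W, ∑ ψ ∈ X, ((ψ g : Lˣ) : L) = if g = 1 then (Fintype.card W : L) else 0)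

def TRVStmt : Prop := ∀ (p s : ℕ) [Fact p.Prime] (W : Type) [CommGroup W] [Fintype W] [DecidableEq W]
  (L : Type) [Field L] [NumberField L] (z : L), Ctx p s (Fintype.card W) L z →
  ∀ τ : L ≃ₐ[ℚ] L, IsConj τ → ∀ (E : W → L) (n : ℕ), 1 ≤ n → Nat.Coprime n (Fintype.card W) →
    (∀ u, IsIntegral ℤ (E u) ∧ E u ∈ IntermediateField.adjoin ℚ {z}) →
    (∀ g, ∑ u, E (u * g) * τ (E u) = if g = 1 then (n : L) else 0) →
    ∀ σ : L ≃ₐ[ℚ] L, FixW (Fintype.card W) σ →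
    (∀ ψ : W →* Lˣ, ∃ η : L, RtU η ∧
      σ (∑ u, E u * ((ψ u : Lˣ) : L)) = η * ∑ u, E u * ((ψ u : Lˣ) : L)) →
    ∃ (g : W) (η : L), η ∈ IntermediateField.adjoin ℚ {z} ∧ RtU η ∧ ∀ u, σ (E u) = η * E (u * g⁻¹)

/-- the eigen-relation, `p` odd -/
def KEOStmt : Prop := ∀ (p s a m : ℕ) [Fact p.Prime] (W : Type) [CommGroup W] [Fintype W]
  [DecidableEq W] (f : ZMod (p ^ s) → W → ℤ) (lam : ℤ), p ≠ 2 → 1 ≤ s →
  Nat.Coprime p (Fintype.card W) → Nat.Coprime m (Fintype.card W) → 1 ≤ m →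
  (m = 1 ∨ 4 ^ (m ^ 2) < p) → DS p s W f ((p ^ a * m : ℕ) : ℤ) lam →
  ∀ t : (ZMod (p ^ s))ˣ, ∃ (g : W) (j : ZMod (p ^ s)) (ε : ℤ), (ε = 1 ∨ ε = -1) ∧
    ∀ u : W, Per p s (fun i => f ((↑t⁻¹ : ZMod (p ^ s)) * i) u - ε * f (i - j) (u * g⁻¹))

/-- the eigen-relation, `p = 2`, `n = 2^a`, `f` integer valued -/
def KE2Stmt : Prop := ∀ (s a : ℕ) (W : Type) [CommGroup W] [Fintype W]
  [DecidableEq W] (f : ZMod (2 ^ s) → W → ℤ) (lam : ℤ), 1 ≤ s →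
  Nat.Coprime 2 (Fintype.card W) → DS 2 s W f ((2 ^ (2 * a) : ℕ) : ℤ) lam →
  ∃ (c : ZMod (2 ^ s)) (b : W → ℤ), ∀ u : W,
    Per 2 s (fun i => f (i + c) u - if i = 0 then b u else 0)

/-! ### Block C : combinatorics -/

/-- normalisation by a translation -/
def NORStmt : Prop := ∀ (p s : ℕ) [Fact p.Prime] (W : Type) [CommGroup W] [Fintype W] [DecidableEq W]
  (f : ZMod (p ^ s) → W → ℤ) (n lam : ℤ) (t : (ZMod (p ^ s))ˣ) (g : W) (j : ZMod (p ^ s)) (ε : ℤ),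
  DS p s W f n lam → IsUnit ((t : ZMod (p ^ s)) - 1) → (ε = 1 ∨ ε = -1) →
  (∀ u : W, Per p s (fun i => f ((↑t⁻¹ : ZMod (p ^ s)) * i) u - ε * f (i - j) (u * g⁻¹))) →
  ∃ c : ZMod (p ^ s), NS p s W (fun i u => f (i + c) u) t g ε ∧
    DS p s W (fun i u => f (i + c) u) n lam ∧
    ∑ i, ∑ u, f (i + c) u = ∑ i, ∑ u, f i u

/-- the translation part `g` has order dividing `p - 1` -/
def GPWStmt : Prop := ∀ (p s : ℕ) [Fact p.Prime] (W : Type) [CommGroup W] [Fintype W] [DecidableEq W]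
  (f : ZMod (p ^ s) → W → ℤ) (n lam : ℤ) (t : (ZMod (p ^ s))ˣ) (g : W) (ε : ℤ),
  p ≠ 2 → 1 ≤ s → n ≠ 0 → Nat.Coprime p (Fintype.card W) → DS p s W f n lam → NS p s W f t g ε →
  g ^ (p - 1) = 1

/-- invariance outside the subgroup of order `p` -/
def QINStmt : Prop := ∀ (p s : ℕ) [Fact p.Prime] (W : Type) [CommGroup W] [Fintype W] [DecidableEq W]
  (f : ZMod (p ^ s) → W → ℤ) (t : (ZMod (p ^ s))ˣ) (g : W) (ε : ℤ),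
  p ≠ 2 → 1 ≤ s → (∀ x : (ZMod (p ^ s))ˣ, x ∈ Subgroup.zpowers t) → g ^ (p - 1) = 1 →
  NS p s W f t g ε →
  ∀ (i y : ZMod (p ^ s)) (u : W), (p : ZMod (p ^ s)) * y = 0 → (p : ZMod (p ^ s)) * i ≠ 0 →
    f (i + y) u = f i u

/-- passage to the subgroup of order `p` -/
def BSGStmt : Prop := ∀ (p s : ℕ) [Fact p.Prime] (W : Type) [CommGroup W] [Fintype W] [DecidableEq W]
  (f : ZMod (p ^ s) → W → ℤ) (n lam : ℤ) (t : (ZMod (p ^ s))ˣ) (g : W) (ε : ℤ),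
  p ≠ 2 → 1 ≤ s → (∀ x : (ZMod (p ^ s))ˣ, x ∈ Subgroup.zpowers t) → g ^ (p - 1) = 1 →
  (∀ i u, f i u = 0 ∨ f i u = 1) → DS p s W f n lam → NS p s W f t g ε →
  (∀ (i y : ZMod (p ^ s)) (u : W), (p : ZMod (p ^ s)) * y = 0 → (p : ZMod (p ^ s)) * i ≠ 0 →
    f (i + y) u = f i u) →
  ∃ τ : (ZMod p)ˣ, BS p W (fun l u => f (iota p s l) u)
    (fun u => f (iota p s 1) u - f (iota p s 0) u) τ g ε n

/-- correlation identity for `K` -/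
def KCOStmt : Prop := ∀ (p : ℕ) [Fact p.Prime] (W : Type) [CommGroup W] [Fintype W] [DecidableEq W]
  (B : ZMod p → W → ℤ) (K : W → ℤ) (τ : (ZMod p)ˣ) (g : W) (ε n : ℤ), p ≠ 2 →
  BS p W B K τ g ε n → ∀ h : W,
    (p : ℤ) * Cor K h - ∑ d ∈ range (p - 1), ε ^ d * Cor K (h * g ^ d) = if h = 1 then n else 0

/-- even group order forces `n` to be a square -/
def SQRStmt : Prop := ∀ (p s : ℕ) [Fact p.Prime] (W : Type) [CommGroup W] [Fintype W] [DecidableEq W]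
  (f : ZMod (p ^ s) → W → ℤ) (n lam : ℤ), DS p s W f n lam → 2 ∣ p ^ s * Fintype.card W →
  ∃ a : ℤ, n = a ^ 2

/-- the sign is `+` -/
def SGNStmt : Prop := ∀ (p s : ℕ) [Fact p.Prime] (W : Type) [CommGroup W] [Fintype W] [DecidableEq W]
  (f : ZMod (p ^ s) → W → ℤ) (n lam : ℤ) (B : ZMod p → W → ℤ) (K : W → ℤ) (τ : (ZMod p)ˣ)
  (g : W) (ε : ℤ), p ≠ 2 → 0 < n → DS p s W f n lam → BS p W B K τ g ε n → ε = 1

/-- numerical consequences for sign `+` -/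
def OUTStmt : Prop := ∀ (p : ℕ) [Fact p.Prime] (W : Type) [CommGroup W] [Fintype W] [DecidableEq W]
  (B : ZMod p → W → ℤ) (K : W → ℤ) (τ : (ZMod p)ˣ) (g : W) (n : ℤ), p ≠ 2 →
  BS p W B K τ g 1 n →
  (∑ u, K u) ^ 2 = n ∧
  (p : ℤ) * ∑ u, K u ^ 2 = n * (1 + ((range (p - 1)).filter (fun d => g ^ d = 1)).card) ∧
  ∑ d ∈ range (p - 1), Cor K (g ^ d) = n * ((range (p - 1)).filter (fun d => g ^ d = 1)).card ∧
  (∀ u, K u = 0 ∨ K u = 1 ∨ K u = -1) ∧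
  (∀ (u : W) (d : ℕ), K u = 1 → B 0 (u * g ^ d) = 0) ∧
  (∀ (u : W) (d : ℕ), K u = -1 → B 0 (u * g ^ d) = 1)

/-- the number `r = #{d < p-1 : g^d = 1}` -/
def RNUStmt : Prop := ∀ (p : ℕ) [Fact p.Prime] (W : Type) [CommGroup W] [Fintype W] [DecidableEq W]
  (g : W), p ≠ 2 → g ^ (p - 1) = 1 →
  ((range (p - 1)).filter (fun d => g ^ d = 1)).card ∣ p - 1 ∧
  (((range (p - 1)).filter (fun d => g ^ d = 1)).card = 1 → 2 ∣ Fintype.card W)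

/-- the main inequality -/
def INEStmt : Prop := ∀ (p s : ℕ) [Fact p.Prime] (W : Type) [CommGroup W] [Fintype W] [DecidableEq W]
  (f : ZMod (p ^ s) → W → ℤ) (n lam : ℤ) (τ : (ZMod p)ˣ) (g : W) (r : ℤ),
  p ≠ 2 → 1 ≤ s → (∀ i u, f i u = 0 ∨ f i u = 1) → DS p s W f n lam →
  (∀ (i y : ZMod (p ^ s)) (u : W), (p : ZMod (p ^ s)) * y = 0 → (p : ZMod (p ^ s)) * i ≠ 0 →
    f (i + y) u = f i u) →
  BS p W (fun l u => f (iota p s l) u) (fun u => f (iota p s 1) u - f (iota p s 0) u) τ g 1 n →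
  r = ((range (p - 1)).filter (fun d => g ^ d = 1)).card →
  2 * (p : ℤ) * n * (p - 1) +
      ((p ^ s * Fintype.card W : ℕ) : ℤ) * n * ((p - 1) * (r - 1) - 2 * r) ≤
    (p - 1) * p * (2 * (∑ i, ∑ u, f i u) - ((p ^ s * Fintype.card W : ℕ) : ℤ)) *
      (∑ u, (f (iota p s 1) u - f (iota p s 0) u))

/-- lower bounds for `k` and `v - k` -/
def LOWStmt : Prop := ∀ (p s : ℕ) [Fact p.Prime] (W : Type) [CommGroup W] [Fintype W] [DecidableEq W]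
  (f : ZMod (p ^ s) → W → ℤ) (n lam : ℤ) (τ : (ZMod p)ˣ) (g : W),
  p ≠ 2 → 1 ≤ s → (∀ i u, f i u = 0 ∨ f i u = 1) → DS p s W f n lam →
  (∀ (i y : ZMod (p ^ s)) (u : W), (p : ZMod (p ^ s)) * y = 0 → (p : ZMod (p ^ s)) * i ≠ 0 →
    f (i + y) u = f i u) →
  BS p W (fun l u => f (iota p s l) u) (fun u => f (iota p s 1) u - f (iota p s 0) u) τ g 1 n →
  p = 3 → g = 1 →
  3 * n + (∑ u, (f (iota p s 1) u - f (iota p s 0) u)) ≤ 2 * ∑ i, ∑ u, f i u ∧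
  3 * n - (∑ u, (f (iota p s 1) u - f (iota p s 0) u)) ≤
    2 * (((p ^ s * Fintype.card W : ℕ) : ℤ) - ∑ i, ∑ u, f i u) ∧
  n ≤ Fintype.card W

/-! ### Block G : groups -/

def GRPStmt : Prop := ∀ (G : Type) [CommGroup G] [Fintype G] [DecidableEq G] (D : Finset G) (lam : ℕ),
  (∀ g : G, g ≠ 1 → ((D ×ˢ D).filter (fun x => x.1 * x.2⁻¹ = g)).card = lam) →
  ∀ (p : ℕ) [Fact p.Prime], p ∣ Fintype.card G → (∃ P : Sylow p G, IsCyclic ↥(P.toSubgroup)) →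
  ∃ (s : ℕ) (W : Type) (_ : CommGroup W) (_ : Fintype W) (_ : DecidableEq W)
    (f : ZMod (p ^ s) → W → ℤ), 1 ≤ s ∧ Nat.Coprime p (Fintype.card W) ∧
    p ^ s * Fintype.card W = Fintype.card G ∧ (∀ i u, f i u = 0 ∨ f i u = 1) ∧
    ∑ i, ∑ u, f i u = (D.card : ℤ) ∧ DS p s W f ((D.card : ℤ) - lam) lam

/-! ### Final statements -/

/-- all the numerical information, `p` odd -/
def NUMStmt : Prop := ∀ (p s a m : ℕ) [Fact p.Prime] (W : Type) [CommGroup W] [Fintype W]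
  [DecidableEq W] (f : ZMod (p ^ s) → W → ℤ) (lam : ℤ), p ≠ 2 → 1 ≤ s →
  Nat.Coprime p (Fintype.card W) → Nat.Coprime m (Fintype.card W) → 1 ≤ m →
  (m = 1 ∨ 4 ^ (m ^ 2) < p) → (∀ i u, f i u = 0 ∨ f i u = 1) →
  DS p s W f ((p ^ a * m : ℕ) : ℤ) lam →
  ∃ (κ S : ℤ) (r : ℕ), κ ^ 2 = ((p ^ a * m : ℕ) : ℤ) ∧ r ∣ p - 1 ∧
    (r = 1 → 2 ∣ Fintype.card W) ∧ (p : ℤ) * S = ((p ^ a * m : ℕ) : ℤ) * (1 + r) ∧
    2 ∣ ((p ^ a * m : ℕ) : ℤ) - S ∧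
    2 * (p : ℤ) * ((p ^ a * m : ℕ) : ℤ) * (p - 1) +
        ((p ^ s * Fintype.card W : ℕ) : ℤ) * ((p ^ a * m : ℕ) : ℤ) * ((p - 1) * (r - 1) - 2 * r) ≤
      (p - 1) * p * (2 * (∑ i, ∑ u, f i u) - ((p ^ s * Fintype.card W : ℕ) : ℤ)) * κ ∧
    (p = 3 → r = 2 → 3 * ((p ^ a * m : ℕ) : ℤ) + κ ≤ 2 * ∑ i, ∑ u, f i u ∧
      3 * ((p ^ a * m : ℕ) : ℤ) - κ ≤
        2 * (((p ^ s * Fintype.card W : ℕ) : ℤ) - ∑ i, ∑ u, f i u) ∧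
      p ^ a * m ≤ Fintype.card W)

/-- pushforward to the quotient by the subgroup of order two -/
def PSHStmt : Prop := ∀ (s : ℕ) (W : Type) [CommGroup W] [Fintype W] [DecidableEq W]
  (f : ZMod (2 ^ (s + 1)) → W → ℤ) (n lam : ℤ), 1 ≤ s → DS 2 (s + 1) W f n lam →
  DS 2 s W (fun i u => ∑ j ∈ univ.filter (fun j : ZMod (2 ^ (s + 1)) =>
    (ZMod.castHom (pow_dvd_pow 2 (Nat.le_succ s)) (ZMod (2 ^ s))) j = i), f j u) n (2 * lam)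

/-- `p = 2`, `s ≥ 2`: contradiction -/
def TWOStmt : Prop := ∀ (s a : ℕ) (W : Type) [CommGroup W] [Fintype W] [DecidableEq W]
  (f : ZMod (2 ^ (s + 1)) → W → ℤ) (lam : ℤ), 1 ≤ s → 1 ≤ a → Nat.Coprime 2 (Fintype.card W) →
  (∀ i u, f i u = 0 ∨ f i u = 1) → DS 2 (s + 1) W f ((2 ^ (2 * a) : ℕ) : ℤ) lam → False

/-- arithmetic for `p ≥ 11` -/
def ARDStmt : Prop := ∀ (p a m w k lam s r : ℕ) (κ S : ℤ), p.Prime → 11 ≤ p → 2 ≤ m → ¬ p ∣ m →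
  1 ≤ s → 1 ≤ a → Nat.Coprime m (p ^ s * w) → 0 < k → k < p ^ s * w → 0 < w →
  κ ^ 2 = ((p ^ a * m : ℕ) : ℤ) → r ∣ p - 1 → (r = 1 → 2 ∣ w) →
  (p : ℤ) * S = ((p ^ a * m : ℕ) : ℤ) * (1 + r) → 2 ∣ ((p ^ a * m : ℕ) : ℤ) - S →
  2 * (p : ℤ) * ((p ^ a * m : ℕ) : ℤ) * (p - 1) +
      ((p ^ s * w : ℕ) : ℤ) * ((p ^ a * m : ℕ) : ℤ) * ((p - 1) * (r - 1) - 2 * r) ≤
    (p - 1) * p * (2 * (k : ℤ) - ((p ^ s * w : ℕ) : ℤ)) * κ → False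

/-- arithmetic for `p = 3` -/
def AR3Stmt : Prop := ∀ (a w s : ℕ) (κ k lam : ℤ), 1 ≤ s → 1 ≤ a → Nat.Coprime 3 w →
  0 < lam → k = lam + 3 ^ a → k < 3 ^ s * w - 1 → k ^ 2 = 3 ^ a + lam * (3 ^ s * w) →
  κ ^ 2 = 3 ^ a → 3 * (3 : ℤ) ^ a + κ ≤ 2 * k →
  3 * (3 : ℤ) ^ a - κ ≤ 2 * (3 ^ s * w - k) → (3 : ℤ) ^ a ≤ w →
  s = 1 ∧ ∃ b : ℕ, 1 ≤ b ∧ a = 2 * b + 2 ∧
    (2 * (3 * (w : ℤ)) = 75 * (3 ^ b) ^ 2 - 3 ∨ 4 * (3 * (w : ℤ)) = 147 * (3 ^ b) ^ 2 - 3 ∨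
      5 * (3 * (w : ℤ)) = 192 * (3 ^ b) ^ 2 - 3)

/-! ### Block A : the norm obstruction (`m` not a square, `p > m² + m + 1`) -/

/-- quadratic Gauss sum -/
def GSSStmt : Prop := ∀ (p : ℕ) [Fact p.Prime] (L : Type) [Field L] [NumberField L] (z : L),
  p ≠ 2 → IsPrimitiveRoot z p → IsCyclotomicExtension {p} ℚ L → ∀ τ : L ≃ₐ[ℚ] L, IsConj τ →
  ∃ G : L, IsIntegral ℤ G ∧ G * τ G = (p : L) ∧ (G ^ 2 = (p : L) ∨ G ^ 2 = -(p : L))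

/-- counting step -/
def AINStmt : Prop := ∀ (p m : ℕ) [Fact p.Prime] (a : ZMod p → ℤ) (c : ℤ),
  (∀ d : ZMod p, ∑ x, a (x + d) * a x = c + if d = 0 then (m : ℤ) else 0) →
  m ^ 2 + m + 1 < p → IsSquare m

/-- norm equation in `ℤ[ζ_p]` -/
def ASQStmt : Prop := ∀ (p a m : ℕ) [Fact p.Prime] (L : Type) [Field L] [NumberField L] (z : L),
  p ≠ 2 → IsPrimitiveRoot z p → IsCyclotomicExtension {p} ℚ L → ∀ τ : L ≃ₐ[ℚ] L, IsConj τ →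
  ∀ e : L, IsIntegral ℤ e → e * τ e = (p : L) ^ a * (m : L) → m ^ 2 + m + 1 < p → IsSquare m

/-- projection of a difference set to `ZMod p` -/
def GRAStmt : Prop := ∀ (G : Type) [CommGroup G] [Fintype G] [DecidableEq G] (D : Finset G) (lam : ℕ),
  (∀ g : G, g ≠ 1 → ((D ×ˢ D).filter (fun x => x.1 * x.2⁻¹ = g)).card = lam) →
  ∀ (p : ℕ) [Fact p.Prime], p ∣ Fintype.card G →
  ∃ (f : ZMod p → ℤ) (c : ℤ), ∀ d : ZMod p,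
    ∑ x, f (x + d) * f x = c + if d = 0 then (D.card : ℤ) - lam else 0

end LAN
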